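import Pool.Agent.FSP.Table

/-! Certificates for the level `12`. -/

set_option autoImplicit false

namespace Pool.Agent.FSP.L12

/-- certificate -/
def c5 : Cert where
  g := 5
  o := 2
  rel := [([1, 2, 9], [3, 10, 11])]
  com := [([3, 10, 11], [2, 11, 11])]
  a := [11, 6]
  b := [1, 0]
  W := [0, 2251851353817098, 2251799814209544, 2251851353817094, 2251799814209540, 2251851353817090,
    2251799814209536, 2251748274601982, 2251799814209532, 2251748274601978, 2251799814209528,
    2251748274601974]
  T := [0, 2251799814209512, 0, 0, 0, 2251696734994456, 0, 2251902893424616, 0, 0, 0, 2251799814209560]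
  tl := [1]
  N := [[-24]]
  E := [[-1]]

theorem c5_ok1 : c5.check1 12 = true := by decide +kernel

theorem c5_ok2 : c5.check2 12 = true := by decide +kernel

theorem c5_ok3 : c5.check3 12 = true := by decide +kernel

/-- certificate -/
def c7 : Cert where
  g := 7
  o := 2
  rel := [([1, 1, 10], [2, 11, 11])]
  com := [([3, 10, 11], [1, 1, 10])]
  a := [7, 8]
  b := [1, 0]
  W := [0, 2251765454471170, 2251731094732792, 2251799814209542, 2251765454471164, 2251834173947914,
    2251799814209536, 2251765454471158, 2251834173947908, 2251799814209530, 2251868533686280,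
    2251834173947902]
  T := [0, 2251902893424616, 0, 0, 0, 2251799814209512, 0, 2251799814209560, 0, 0, 0, 2251696734994456]
  tl := [1]
  N := [[24]]
  E := [[1]]

theorem c7_ok1 : c7.check1 12 = true := by decide +kernel

theorem c7_ok2 : c7.check2 12 = true := by decide +kernel

theorem c7_ok3 : c7.check3 12 = true := by decide +kernel

/-- the table -/
def tab : List Cert := [c5, c7]

theorem tab_ok : tableOK 12 2 tab = true := by decide +kernel

theorem per_ok : perOK 12 tab = true := by decide +kernel

theorem all_ok : ∀ c ∈ tab, c.check1 12 = true ∧ c.check2 12 = true ∧ c.check3 12 = true := by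
  intro c hc
  simp only [tab, List.mem_cons, List.not_mem_nil, or_false] at hc
  rcases hc with rfl | rfl
  · exact ⟨c5_ok1, c5_ok2, c5_ok3⟩
  · exact ⟨c7_ok1, c7_ok2, c7_ok3⟩

theorem lev : Lev 12 := lev_of_table (by norm_num) 2 tab tab_ok per_ok all_ok

end Pool.Agent.FSP.L12
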