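import Pool.Agent.FSP.Fam
import Pool.Agent.FSP.L12
import Pool.Agent.FSP.L15
import Pool.Agent.FSP.L20
import Pool.Agent.FSP.L21
import Pool.Agent.FSP.L24
import Pool.Agent.FSP.L28
import Pool.Agent.FSP.L30
import Pool.Agent.FSP.L33
import Pool.Agent.FSP.L35
import Pool.Agent.FSP.L36
import Pool.Agent.FSP.L39
import Pool.Agent.FSP.L40
import Pool.Agent.FSP.L42
import Pool.Agent.FSP.L44
import Pool.Agent.FSP.L45
import Pool.Agent.FSP.L48
import Pool.Agent.FSP.L51
import Pool.Agent.FSP.L52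
import Pool.Agent.FSP.L57
import Pool.Agent.FSP.L60
import Pool.Agent.FSP.L63
import Pool.Agent.FSP.L66
import Pool.Agent.FSP.L70
import Pool.Agent.FSP.L72
import Pool.Agent.FSP.L75
import Pool.Agent.FSP.L78
import Pool.Agent.FSP.L80
import Pool.Agent.FSP.L84
import Pool.Agent.FSP.L88
import Pool.Agent.FSP.L90
import Pool.Agent.FSP.L96
import Pool.Agent.FSP.L100
import Pool.Agent.FSP.L102
import Pool.Agent.FSP.L108

/-! The levels. -/

set_option autoImplicit false

namespace Pool.Agent.FSP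

theorem t12 : TLev 12 :=
  tlev_of_lev L12.lev (good_one (m := 12) (m₀ := 2 ^ 2 * 3 ^ 1) (by norm_num)
    (al_of (T := {2, 3}) (pf_two 2 3 2 1 (by norm_num) (by norm_num)) (by decide) (by decide)))

theorem t15 : TLev 15 :=
  tlev_of_lev L15.lev (good_one (m := 15) (m₀ := 3 ^ 1 * 5 ^ 1) (by norm_num)
    (al_of (T := {3, 5}) (pf_two 3 5 1 1 (by norm_num) (by norm_num)) (by decide) (by decide)))

theorem t20 : TLev 20 :=
  tlev_of_lev L20.lev (good_one (m := 20) (m₀ := 2 ^ 2 * 5 ^ 1) (by norm_num)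
    (al_of (T := {2, 5}) (pf_two 2 5 2 1 (by norm_num) (by norm_num)) (by decide) (by decide)))

theorem t21 : TLev 21 :=
  tlev_of_lev L21.lev (good_one (m := 21) (m₀ := 3 ^ 1 * 7 ^ 1) (by norm_num)
    (al_of (T := {3, 7}) (pf_two 3 7 1 1 (by norm_num) (by norm_num)) (by decide) (by decide)))

theorem t24 : TLev 24 :=
  tlev_of_lev L24.lev (good_one (m := 24) (m₀ := 2 ^ 3 * 3 ^ 1) (by norm_num)
    (al_of (T := {2, 3}) (pf_two 2 3 3 1 (by norm_num) (by norm_num)) (by decide) (by decide)))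

theorem t28 : TLev 28 :=
  tlev_of_lev L28.lev (good_one (m := 28) (m₀ := 2 ^ 2 * 7 ^ 1) (by norm_num)
    (al_of (T := {2, 7}) (pf_two 2 7 2 1 (by norm_num) (by norm_num)) (by decide) (by decide)))

theorem t30 : TLev 30 :=
  tlev_of_lev L30.lev (good_two (m := 30) (m₀ := 3 ^ 1 * 5 ^ 1) (by norm_num) (by decide)
    (al_of (T := {3, 5}) (pf_two 3 5 1 1 (by norm_num) (by norm_num)) (by decide) (by decide)))

theorem t33 : TLev 33 :=
  tlev_of_lev L33.lev (good_one (m := 33) (m₀ := 3 ^ 1 * 11 ^ 1) (by norm_num)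
    (al_of (T := {3, 11}) (pf_two 3 11 1 1 (by norm_num) (by norm_num)) (by decide) (by decide)))

theorem t35 : TLev 35 :=
  tlev_of_lev L35.lev (good_one (m := 35) (m₀ := 5 ^ 1 * 7 ^ 1) (by norm_num)
    (al_of (T := {5, 7}) (pf_two 5 7 1 1 (by norm_num) (by norm_num)) (by decide) (by decide)))

theorem t36 : TLev 36 :=
  tlev_of_lev L36.lev (good_one (m := 36) (m₀ := 2 ^ 2 * 3 ^ 2) (by norm_num)
    (al_of (T := {2, 3}) (pf_two 2 3 2 2 (by norm_num) (by norm_num)) (by decide) (by decide)))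

theorem t39 : TLev 39 :=
  tlev_of_lev L39.lev (good_one (m := 39) (m₀ := 3 ^ 1 * 13 ^ 1) (by norm_num)
    (al_of (T := {3, 13}) (pf_two 3 13 1 1 (by norm_num) (by norm_num)) (by decide) (by decide)))

theorem t40 : TLev 40 :=
  tlev_of_lev L40.lev (good_one (m := 40) (m₀ := 2 ^ 3 * 5 ^ 1) (by norm_num)
    (al_of (T := {2, 5}) (pf_two 2 5 3 1 (by norm_num) (by norm_num)) (by decide) (by decide)))

theorem t42 : TLev 42 :=
  tlev_of_lev L42.lev (good_two (m := 42) (m₀ := 3 ^ 1 * 7 ^ 1) (by norm_num) (by decide)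
    (al_of (T := {3, 7}) (pf_two 3 7 1 1 (by norm_num) (by norm_num)) (by decide) (by decide)))

theorem t44 : TLev 44 :=
  tlev_of_lev L44.lev (good_one (m := 44) (m₀ := 2 ^ 2 * 11 ^ 1) (by norm_num)
    (al_of (T := {2, 11}) (pf_two 2 11 2 1 (by norm_num) (by norm_num)) (by decide) (by decide)))

theorem t45 : TLev 45 :=
  tlev_of_lev L45.lev (good_one (m := 45) (m₀ := 3 ^ 2 * 5 ^ 1) (by norm_num)
    (al_of (T := {3, 5}) (pf_two 3 5 2 1 (by norm_num) (by norm_num)) (by decide) (by decide)))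

theorem t48 : TLev 48 :=
  tlev_of_lev L48.lev (good_one (m := 48) (m₀ := 2 ^ 4 * 3 ^ 1) (by norm_num)
    (al_of (T := {2, 3}) (pf_two 2 3 4 1 (by norm_num) (by norm_num)) (by decide) (by decide)))

theorem t51 : TLev 51 :=
  tlev_of_lev L51.lev (good_one (m := 51) (m₀ := 3 ^ 1 * 17 ^ 1) (by norm_num)
    (al_of (T := {3, 17}) (pf_two 3 17 1 1 (by norm_num) (by norm_num)) (by decide) (by decide)))

theorem t52 : TLev 52 :=
  tlev_of_lev L52.lev (good_one (m := 52) (m₀ := 2 ^ 2 * 13 ^ 1) (by norm_num)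
    (al_of (T := {2, 13}) (pf_two 2 13 2 1 (by norm_num) (by norm_num)) (by decide) (by decide)))

theorem t57 : TLev 57 :=
  tlev_of_lev L57.lev (good_one (m := 57) (m₀ := 3 ^ 1 * 19 ^ 1) (by norm_num)
    (al_of (T := {3, 19}) (pf_two 3 19 1 1 (by norm_num) (by norm_num)) (by decide) (by decide)))

theorem t60 : TLev 60 :=
  tlev_of_lev L60.lev (good_one (m := 60) (m₀ := 2 ^ 2 * 3 ^ 1 * 5 ^ 1) (by norm_num)
    (al_of (T := {2, 3, 5}) (pf_three 2 3 5 2 1 1 (by norm_num) (by norm_num) (by norm_num)) (by decide) (by decide)))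

theorem t63 : TLev 63 :=
  tlev_of_lev L63.lev (good_one (m := 63) (m₀ := 3 ^ 2 * 7 ^ 1) (by norm_num)
    (al_of (T := {3, 7}) (pf_two 3 7 2 1 (by norm_num) (by norm_num)) (by decide) (by decide)))

theorem t66 : TLev 66 :=
  tlev_of_lev L66.lev (good_two (m := 66) (m₀ := 3 ^ 1 * 11 ^ 1) (by norm_num) (by decide)
    (al_of (T := {3, 11}) (pf_two 3 11 1 1 (by norm_num) (by norm_num)) (by decide) (by decide)))

theorem t70 : TLev 70 :=
  tlev_of_lev L70.lev (good_two (m := 70) (m₀ := 5 ^ 1 * 7 ^ 1) (by norm_num) (by decide)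
    (al_of (T := {5, 7}) (pf_two 5 7 1 1 (by norm_num) (by norm_num)) (by decide) (by decide)))

theorem t72 : TLev 72 :=
  tlev_of_lev L72.lev (good_one (m := 72) (m₀ := 2 ^ 3 * 3 ^ 2) (by norm_num)
    (al_of (T := {2, 3}) (pf_two 2 3 3 2 (by norm_num) (by norm_num)) (by decide) (by decide)))

theorem t75 : TLev 75 :=
  tlev_of_lev L75.lev (good_one (m := 75) (m₀ := 3 ^ 1 * 5 ^ 2) (by norm_num)
    (al_of (T := {3, 5}) (pf_two 3 5 1 2 (by norm_num) (by norm_num)) (by decide) (by decide)))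

theorem t78 : TLev 78 :=
  tlev_of_lev L78.lev (good_two (m := 78) (m₀ := 3 ^ 1 * 13 ^ 1) (by norm_num) (by decide)
    (al_of (T := {3, 13}) (pf_two 3 13 1 1 (by norm_num) (by norm_num)) (by decide) (by decide)))

theorem t80 : TLev 80 :=
  tlev_of_lev L80.lev (good_one (m := 80) (m₀ := 2 ^ 4 * 5 ^ 1) (by norm_num)
    (al_of (T := {2, 5}) (pf_two 2 5 4 1 (by norm_num) (by norm_num)) (by decide) (by decide)))

theorem t84 : TLev 84 :=
  tlev_of_lev L84.lev (good_one (m := 84) (m₀ := 2 ^ 2 * 3 ^ 1 * 7 ^ 1) (by norm_num)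
    (al_of (T := {2, 3, 7}) (pf_three 2 3 7 2 1 1 (by norm_num) (by norm_num) (by norm_num)) (by decide) (by decide)))

theorem t88 : TLev 88 :=
  tlev_of_lev L88.lev (good_one (m := 88) (m₀ := 2 ^ 3 * 11 ^ 1) (by norm_num)
    (al_of (T := {2, 11}) (pf_two 2 11 3 1 (by norm_num) (by norm_num)) (by decide) (by decide)))

theorem t90 : TLev 90 :=
  tlev_of_lev L90.lev (good_two (m := 90) (m₀ := 3 ^ 2 * 5 ^ 1) (by norm_num) (by decide)
    (al_of (T := {3, 5}) (pf_two 3 5 2 1 (by norm_num) (by norm_num)) (by decide) (by decide)))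

theorem t96 : TLev 96 :=
  tlev_of_lev L96.lev (good_one (m := 96) (m₀ := 2 ^ 5 * 3 ^ 1) (by norm_num)
    (al_of (T := {2, 3}) (pf_two 2 3 5 1 (by norm_num) (by norm_num)) (by decide) (by decide)))

theorem t100 : TLev 100 :=
  tlev_of_lev L100.lev (good_one (m := 100) (m₀ := 2 ^ 2 * 5 ^ 2) (by norm_num)
    (al_of (T := {2, 5}) (pf_two 2 5 2 2 (by norm_num) (by norm_num)) (by decide) (by decide)))

theorem t102 : TLev 102 :=
  tlev_of_lev L102.lev (good_two (m := 102) (m₀ := 3 ^ 1 * 17 ^ 1) (by norm_num) (by decide)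
    (al_of (T := {3, 17}) (pf_two 3 17 1 1 (by norm_num) (by norm_num)) (by decide) (by decide)))

theorem t108 : TLev 108 :=
  tlev_of_lev L108.lev (good_one (m := 108) (m₀ := 2 ^ 2 * 3 ^ 3) (by norm_num)
    (al_of (T := {2, 3}) (pf_two 2 3 2 3 (by norm_num) (by norm_num)) (by decide) (by decide)))

theorem t3 : TLev 3 := tlev_pp 3 1 (by norm_num) (by norm_num) (by norm_num)

theorem t4 : TLev 4 := tlev_pp 2 2 (by norm_num) (by norm_num) (by norm_num)

theorem t5 : TLev 5 := tlev_pp 5 1 (by norm_num) (by norm_num) (by norm_num)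

theorem t6 : TLev 6 := tlev_two_pp 3 1 (by norm_num) (by norm_num) (by norm_num) (by norm_num)

theorem t7 : TLev 7 := tlev_pp 7 1 (by norm_num) (by norm_num) (by norm_num)

theorem t8 : TLev 8 := tlev_pp 2 3 (by norm_num) (by norm_num) (by norm_num)

theorem t9 : TLev 9 := tlev_pp 3 2 (by norm_num) (by norm_num) (by norm_num)

theorem t10 : TLev 10 := tlev_two_pp 5 1 (by norm_num) (by norm_num) (by norm_num) (by norm_num)

theorem t11 : TLev 11 := tlev_pp 11 1 (by norm_num) (by norm_num) (by norm_num)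

theorem t13 : TLev 13 := tlev_pp 13 1 (by norm_num) (by norm_num) (by norm_num)

theorem t14 : TLev 14 := tlev_two_pp 7 1 (by norm_num) (by norm_num) (by norm_num) (by norm_num)

theorem t16 : TLev 16 := tlev_pp 2 4 (by norm_num) (by norm_num) (by norm_num)

theorem t17 : TLev 17 := tlev_pp 17 1 (by norm_num) (by norm_num) (by norm_num)

theorem t18 : TLev 18 := tlev_two_pp 3 2 (by norm_num) (by norm_num) (by norm_num) (by norm_num)

theorem t19 : TLev 19 := tlev_pp 19 1 (by norm_num) (by norm_num) (by norm_num)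

theorem t22 : TLev 22 := tlev_two_pp 11 1 (by norm_num) (by norm_num) (by norm_num) (by norm_num)

theorem t23 : TLev 23 := tlev_pp 23 1 (by norm_num) (by norm_num) (by norm_num)

theorem t25 : TLev 25 := tlev_pp 5 2 (by norm_num) (by norm_num) (by norm_num)

theorem t26 : TLev 26 := tlev_two_pp 13 1 (by norm_num) (by norm_num) (by norm_num) (by norm_num)

theorem t27 : TLev 27 := tlev_pp 3 3 (by norm_num) (by norm_num) (by norm_num)

theorem t29 : TLev 29 := tlev_pp 29 1 (by norm_num) (by norm_num) (by norm_num)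

theorem t31 : TLev 31 := tlev_pp 31 1 (by norm_num) (by norm_num) (by norm_num)

theorem t32 : TLev 32 := tlev_pp 2 5 (by norm_num) (by norm_num) (by norm_num)

theorem t34 : TLev 34 := tlev_two_pp 17 1 (by norm_num) (by norm_num) (by norm_num) (by norm_num)

theorem t37 : TLev 37 := tlev_pp 37 1 (by norm_num) (by norm_num) (by norm_num)

theorem t38 : TLev 38 := tlev_two_pp 19 1 (by norm_num) (by norm_num) (by norm_num) (by norm_num)

theorem t41 : TLev 41 := tlev_pp 41 1 (by norm_num) (by norm_num) (by norm_num)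

theorem t43 : TLev 43 := tlev_pp 43 1 (by norm_num) (by norm_num) (by norm_num)

theorem t46 : TLev 46 := tlev_two_pp 23 1 (by norm_num) (by norm_num) (by norm_num) (by norm_num)

theorem t47 : TLev 47 := tlev_pp 47 1 (by norm_num) (by norm_num) (by norm_num)

theorem t49 : TLev 49 := tlev_pp 7 2 (by norm_num) (by norm_num) (by norm_num)

theorem t50 : TLev 50 := tlev_two_pp 5 2 (by norm_num) (by norm_num) (by norm_num) (by norm_num)

theorem t53 : TLev 53 := tlev_pp 53 1 (by norm_num) (by norm_num) (by norm_num)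

theorem t54 : TLev 54 := tlev_two_pp 3 3 (by norm_num) (by norm_num) (by norm_num) (by norm_num)

end Pool.Agent.FSP
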