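import Pool.Agent.Helper9.Fermat.FProd

/-!
# Certificates for the finite levels

A certificate for the level `m` and a unit `g` modulo `m` writes the odd sawtooth functions
`t ↦ sw (t x)` as combinations of the functions `t ↦ ∑ sw (t y) - ∑ sw (t y')` of finitely many
pairs of lists, the first ones of which have vanishing sums over the powers of `g`. Integers are
stored as digits, shifted by `524288`, of natural numbers in base `2 ^ 32`.
-/

set_option autoImplicit false

namespace Pool.Agent.FSP

open Finset
open Pool.Agent.Helper9.Fermat (sw sw_neg sw_zero)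

/-! ### computable functions -/

/-- scalar product of the first `n` digits -/
def dotN : ℕ → ℕ → ℕ → ℕ
  | 0, _, _ => 0
  | n + 1, w, b => (w % 4294967296) * (b % 4294967296) +
      dotN n (w / 4294967296) (b / 4294967296)

/-- sum of the first `n` digits -/
def sumN : ℕ → ℕ → ℕ
  | 0, _ => 0
  | n + 1, w => w % 4294967296 + sumN n (w / 4294967296)

/-- sum of residues -/
def resN (m t : ℕ) : List ℕ → ℕ
  | [] => 0
  | y :: l => t * y % m + resN m t l

/-- the digits are the values of the functions of the pairs of lists -/
def tabRow (m t : ℕ) : List (List ℕ × List ℕ) → ℕ → Bool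
  | [], _ => true
  | b :: l, w => w % 4294967296 + 2 * resN m t b.2 + m * b.1.length ==
      524288 + 2 * resN m t b.1 + m * b.2.length && tabRow m t l (w / 4294967296)

/-- the congruences for the digits -/
def congN (m x : ℕ) : List ℕ → List ℕ → ℕ → Bool
  | [], [], _ => true
  | a :: as, b :: bs, w => w % 4294967296 % (2 * m) == (524288 + 2 * a * x + m * b) % (2 * m) &&
      congN m x as bs (w / 4294967296)
  | _, _, _ => false

/-- sums of rows over the powers of `g` -/
def orb (m g : ℕ) (T : List ℕ) : ℕ → ℕ → ℕ
  | 0, _ => 0
  | o + 1, t => T.getD t 0 + orb m g T o (g * t % m)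

/-- the first digits are equal to `z` -/
def zeroDig (z : ℕ) : ℕ → ℕ → Bool
  | 0, _ => true
  | k + 1, w => w % 4294967296 == z && zeroDig z k (w / 4294967296)

/-- the first `n` digits minus `z` -/
def digs (z : ℕ) : ℕ → ℕ → List ℤ
  | 0, _ => []
  | n + 1, w => (((w % 4294967296 : ℕ) : ℤ) - (z : ℤ)) :: digs z n (w / 4294967296)

/-- the first digits are small -/
def bndDig : ℕ → ℕ → Bool
  | 0, _ => true
  | k + 1, w => Nat.blt (w % 4294967296) 1048576 && bndDig k (w / 4294967296)

/-- a combination of rows evaluated at the column `j` -/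
def comb (j : ℕ) : List ℤ → List (List ℤ) → ℤ
  | e :: es, r :: rs => e * r.getD j 0 + comb j es rs
  | _, _ => 0

/-- A certificate. -/
structure Cert where
  /-- the generator of the group of powers -/
  g : ℕ
  /-- a period -/
  o : ℕ
  /-- the relations -/
  rel : List (List ℕ × List ℕ)
  /-- the complement -/
  com : List (List ℕ × List ℕ)
  /-- the slopes -/
  a : List ℕ
  /-- the parities -/
  b : List ℕ
  /-- `2 m` times the coefficients of the elements `0, 1, ..., m - 1` -/
  W : List ℕ
  /-- the values of the functions of the relations and of the complement at the units -/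
  T : List ℕ
  /-- some units -/
  tl : List ℕ
  /-- the sums over the powers of `g` at these units for the complement -/
  N : List (List ℤ)
  /-- the inverse of this matrix up to a diagonal matrix -/
  E : List (List ℤ)

/-- relations: two triples of sum zero -/
def relOK (m : ℕ) (b : List ℕ × List ℕ) : Bool :=
  b.1.length == 3 && b.2.length == 3 && b.1.sum % m == 0 && b.2.sum % m == 0

/-- the elements are nonzero -/
def nzOK (m : ℕ) (b : List ℕ × List ℕ) : Bool :=
  b.1.all (fun y => !(y % m == 0)) && b.2.all (fun y => !(y % m == 0))

/-- the number of functions -/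
def Cert.r (c : Cert) : ℕ := c.rel.length + c.com.length

/-- the tables are correct -/
def Cert.check1 (m : ℕ) (c : Cert) : Bool :=
  c.rel.all (relOK m) && (c.rel ++ c.com).all (nzOK m) &&
  (List.range m).all (fun t => !(Nat.gcd t m == 1) || tabRow m t (c.rel ++ c.com) (c.T.getD t 0))

/-- the coefficients are correct -/
def Cert.check2 (m : ℕ) (c : Cert) : Bool :=
  c.a.length == c.r &&
  (List.range (m - 1)).all (fun x => congN m (x + 1) c.a c.b (c.W.getD (x + 1) 0) &&
    (List.range m).all (fun t => !(Nat.gcd t m == 1) ||
      dotN c.r (c.W.getD (x + 1) 0) (c.T.getD t 0) + c.r * 524288 * 524288 + 2 * m * m ==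
        4 * m * (t * (x + 1) % m) + 524288 * (sumN c.r (c.W.getD (x + 1) 0) +
          sumN c.r (c.T.getD t 0))))

/-- the sums over the powers of `g` are correct -/
def Cert.check3 (m : ℕ) (c : Cert) : Bool :=
  (List.range m).all (fun t => !(Nat.gcd t m == 1) ||
    zeroDig (c.o * 524288) c.rel.length (orb m c.g c.T c.o t)) &&
  Nat.blt (c.o * 1048576) 4294967296 &&
  (List.range m).all (fun t => !(Nat.gcd t m == 1) || bndDig c.r (c.T.getD t 0)) &&
  Nat.gcd c.g m == 1 &&
  c.tl.all (fun t => Nat.gcd t m == 1 && Nat.blt t m) &&
  c.N == c.tl.map (fun t => digs (c.o * 524288) c.com.length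
    (orb m c.g c.T c.o t / 4294967296 ^ c.rel.length)) &&
  c.E.length == c.com.length &&
  (List.range c.com.length).all (fun i => (List.range c.com.length).all (fun j =>
    if i = j then !(comb j (c.E.getD i []) c.N == 0) else comb j (c.E.getD i []) c.N == 0))

end Pool.Agent.FSP
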