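import Pool.Agent.FSU.Defs

/-!
# Tate characters of Fermat varieties and the system of algebraic characters: definitions
-/

set_option autoImplicit false

namespace Pool.Agent.FSP

open Finset

/-- Let `F` be a finite field with `q` elements and `χ j` a character of order `m j` of `Fˣ`. The
family `S j` of multisets of nonzero elements of `ℤ/(m j)` with sum zero, with `2 k` elements
altogether, is a Tate character if the product of all Gauss sums `g(χ j ^ x, ψ)`, `x ∈ S j`, is
`q ^ k` times a root of unity. -/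
def IsTate {F : Type} [Field F] [Fintype F] {ι : Type} [Fintype ι] {m : ι → ℕ}
    (χ : ι → MulChar F ℂ) (ψ : AddChar F ℂ) (S : ∀ j, Multiset (ZMod (m j))) : Prop :=
  (∀ j, (0 : ZMod (m j)) ∉ S j ∧ (S j).sum = 0) ∧ Even (∑ j, (S j).card) ∧ ∃ N : ℕ, 0 < N ∧
    (∏ j, ((S j).map fun x => gaussSum (χ j ^ x.val) ψ).prod) ^ N =
      ((Fintype.card F : ℂ) ^ ((∑ j, (S j).card) / 2)) ^ N

/-- The same condition for one level, expressed by Stickelberger's theorem: for all units `t` the
representatives of the elements `p ^ i t x`, `x ∈ S`, `i` running over a period of the powers of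
`p`, have mean value `m / 2`. -/
def TateN {m : ℕ} (p : ℕ) (S : Multiset (ZMod m)) : Prop :=
  ∃ f : ℕ, 0 < f ∧ (p : ZMod m) ^ f = 1 ∧ ∀ t : (ZMod m)ˣ,
    2 * (S.map fun x => ∑ i ∈ range f, ((p : ZMod m) ^ i * ((t : ZMod m) * x)).val).sum =
      m * f * S.card

instance {m : ℕ} [NeZero m] : NeZero (2 * m) := ⟨Nat.mul_ne_zero two_ne_zero (NeZero.ne m)⟩

/-- The map `x ↦ 2 x` from `ℤ/m` to `ℤ/2m`. -/
def dbl {m : ℕ} (x : ZMod m) : ZMod (2 * m) := ((2 * x.val : ℕ) : ZMod (2 * m))

/-- The smallest system of multisets of elements of `ℤ/m` which contains the multisets whose images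
in `ℤ/2m` under `x ↦ 2 x` belong to `FSU.Gen P (2 * m)`, and the Tate characters
`{x, y, z, x', y', z'}`, `x + y + z = x' + y' + z' = 0`, with nonzero elements, and is closed under
joins and cancellation of pairs. -/
inductive GenT (P : Set (ℕ × ℕ)) (p m : ℕ) [NeZero m] : Multiset (ZMod m) → Prop
  | lift (S : Multiset (ZMod m)) (hS : FSU.Gen P (2 * m) (S.map dbl)) : GenT P p m S
  | curves (x y z x' y' z' : ZMod m) (hx : x ≠ 0) (hy : y ≠ 0) (hz : z ≠ 0) (hx' : x' ≠ 0)
      (hy' : y' ≠ 0) (hz' : z' ≠ 0) (h : x + y + z = 0) (h' : x' + y' + z' = 0)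
      (hT : TateN p {x, y, z, x', y', z'}) : GenT P p m {x, y, z, x', y', z'}
  | join (S T : Multiset (ZMod m)) (hS : GenT P p m S) (hT : GenT P p m T) : GenT P p m (S + T)
  | cancel (S : Multiset (ZMod m)) (x : ZMod m) (hx : x ≠ 0) (hS : GenT P p m (S + {x, -x})) :
      GenT P p m S

/-- The pairs of primes whose exceptional Hodge characters in the list `FSU.extra` are used. -/
def P0 : Set (ℕ × ℕ) := {(5, 7), (2, 11), (2, 13), (3, 17), (3, 19)}

end Pool.Agent.FSP
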