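import Pool.Agent.FSP.Cert

/-!
# Digits
-/

set_option autoImplicit false
set_option linter.unusedSectionVars false

namespace Pool.Agent.FSP

open Finset

/-- the base -/
abbrev ZZ : ℕ := 4294967296

/-- the digit number `i` -/
def dg (i w : ℕ) : ℕ := w / ZZ ^ i % ZZ

theorem dg_zero (w : ℕ) : dg 0 w = w % ZZ := by simp [dg]

theorem dg_succ (i w : ℕ) : dg (i + 1) w = dg i (w / ZZ) := by
  rw [dg, dg, pow_succ', Nat.div_div_eq_div_mul]

theorem dg_add (i k w : ℕ) : dg i (w / ZZ ^ k) = dg (k + i) w := by
  rw [dg, dg, Nat.div_div_eq_div_mul, ← pow_add]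

theorem dotN_eq (n w b : ℕ) : dotN n w b = ∑ i ∈ range n, dg i w * dg i b := by
  induction n generalizing w b with
  | zero => simp [dotN]
  | succ n ih =>
    rw [dotN, ih, Finset.sum_range_succ', add_comm]
    congr 1
    · exact sum_congr rfl fun i _ => by rw [dg_succ, dg_succ]
    · rw [dg_zero, dg_zero]

theorem sumN_eq (n w : ℕ) : sumN n w = ∑ i ∈ range n, dg i w := by
  induction n generalizing w with
  | zero => simp [sumN]
  | succ n ih =>
    rw [sumN, ih, Finset.sum_range_succ', add_comm]
    congr 1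
    · exact sum_congr rfl fun i _ => by rw [dg_succ]
    · rw [dg_zero]

theorem bndDig_spec {k w : ℕ} (h : bndDig k w = true) (i : ℕ) (hi : i < k) :
    dg i w < 1048576 := by
  induction k generalizing w i with
  | zero => omega
  | succ k ih =>
    rw [bndDig, Bool.and_eq_true] at h
    cases i with
    | zero =>
      rw [Nat.blt_eq] at h
      rw [dg_zero]
      exact h.1
    | succ i =>
      rw [dg_succ]
      exact ih h.2 i (by omega)

theorem zeroDig_spec {z k w : ℕ} (h : zeroDig z k w = true) (i : ℕ) (hi : i < k) :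
    dg i w = z := by
  induction k generalizing w i with
  | zero => omega
  | succ k ih =>
    rw [zeroDig, Bool.and_eq_true, beq_iff_eq] at h
    cases i with
    | zero =>
      rw [dg_zero]
      exact h.1
    | succ i =>
      rw [dg_succ]
      exact ih h.2 i (by omega)

theorem digs_getD (z n w i : ℕ) (hi : i < n) : (digs z n w).getD i 0 = (dg i w : ℤ) - z := by
  induction n generalizing w i with
  | zero => omega
  | succ n ih =>
    cases i with
    | zero => rw [digs, List.getD_cons_zero, dg_zero]
    | succ i => rw [digs, List.getD_cons_succ, dg_succ, ih _ _ (by omega)]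

theorem congN_spec {m x : ℕ} (a b : List ℕ) (w : ℕ) (h : congN m x a b w = true) (i : ℕ)
    (hi : i < a.length) :
    dg i w % (2 * m) = (524288 + 2 * a.getD i 0 * x + m * b.getD i 0) % (2 * m) := by
  induction a generalizing b w i with
  | nil => simp at hi
  | cons a as ih =>
    cases b with
    | nil => simp [congN] at h
    | cons b bs =>
      rw [congN, Bool.and_eq_true, beq_iff_eq] at h
      cases i with
      | zero =>
        rw [dg_zero, List.getD_cons_zero, List.getD_cons_zero]
        exact h.1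
      | succ i =>
        rw [dg_succ, List.getD_cons_succ, List.getD_cons_succ]
        exact ih bs _ h.2 i (by simpa using hi)

theorem tabRow_spec {m t : ℕ} (l : List (List ℕ × List ℕ)) (w : ℕ) (h : tabRow m t l w = true)
    (i : ℕ) (hi : i < l.length) :
    dg i w + 2 * resN m t (l[i]).2 + m * (l[i]).1.length =
      524288 + 2 * resN m t (l[i]).1 + m * (l[i]).2.length := by
  induction l generalizing w i with
  | nil => simp at hi
  | cons b l ih =>
    rw [tabRow, Bool.and_eq_true, beq_iff_eq] at h
    cases i with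
    | zero =>
      rw [dg_zero]
      exact h.1
    | succ i =>
      rw [dg_succ]
      exact ih _ h.2 i (by simpa using hi)

/-- digits of sums without carries -/
theorem dg_sum (n a b A B : ℕ) (hAB : A + B < ZZ) (ha : ∀ i < n, dg i a ≤ A)
    (hb : ∀ i < n, dg i b ≤ B) (i : ℕ) (hi : i < n) : dg i (a + b) = dg i a + dg i b := by
  induction n generalizing a b i with
  | zero => omega
  | succ n ih =>
    have h1 := ha 0 (by omega)
    have h2 := hb 0 (by omega)
    rw [dg_zero] at h1 h2
    have h3 : a % ZZ + b % ZZ < ZZ := by omega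
    cases i with
    | zero =>
      rw [dg_zero, dg_zero, dg_zero, Nat.add_mod, Nat.mod_eq_of_lt h3]
    | succ i =>
      rw [dg_succ, dg_succ, dg_succ]
      have h4 : (a + b) / ZZ = a / ZZ + b / ZZ := by
        rw [Nat.add_div (by norm_num [ZZ]), if_neg (by omega), add_zero]
      rw [h4]
      refine ih _ _ (fun j hj => ?_) (fun j hj => ?_) i (by omega)
      · rw [← dg_succ]
        exact ha (j + 1) (by omega)
      · rw [← dg_succ]
        exact hb (j + 1) (by omega)

/-- the iterates of the multiplication by `g` -/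
def itr (m g : ℕ) : ℕ → ℕ → ℕ
  | 0, t => t
  | j + 1, t => itr m g j (g * t % m)

theorem itr_spec {m g : ℕ} (hm : 0 < m) (hg : Nat.gcd g m = 1) (j t : ℕ) (ht : t < m)
    (htc : Nat.gcd t m = 1) : itr m g j t < m ∧ Nat.gcd (itr m g j t) m = 1 ∧
      ((itr m g j t : ℕ) : ZMod m) = (g : ZMod m) ^ j * (t : ZMod m) := by
  induction j generalizing t with
  | zero => exact ⟨ht, htc, by simp [itr]⟩
  | succ j ih =>
    have h1 : Nat.gcd (g * t % m) m = 1 := by
      rw [← Nat.gcd_rec, Nat.gcd_comm]
      exact Nat.Coprime.mul_left hg htc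
    obtain ⟨h2, h3, h4⟩ := ih (g * t % m) (Nat.mod_lt _ hm) h1
    refine ⟨h2, h3, ?_⟩
    rw [itr, h4, ZMod.natCast_mod]
    push_cast
    ring

theorem orb_spec {m g : ℕ} (hm : 0 < m) (hg : Nat.gcd g m = 1) (T : List ℕ) (n : ℕ)
    (hT : ∀ t < m, Nat.gcd t m = 1 → ∀ i < n, dg i (T.getD t 0) < 1048576) (o : ℕ)
    (ho : o * 1048576 < ZZ) (t : ℕ) (ht : t < m) (htc : Nat.gcd t m = 1) (i : ℕ) (hi : i < n) :
    dg i (orb m g T o t) = ∑ j ∈ range o, dg i (T.getD (itr m g j t) 0) := by
  induction o generalizing t i with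
  | zero => simp [orb, dg]
  | succ o ih =>
    have h1 : Nat.gcd (g * t % m) m = 1 := by
      rw [← Nat.gcd_rec, Nat.gcd_comm]
      exact Nat.Coprime.mul_left hg htc
    have ho' : o * 1048576 < ZZ :=
      lt_of_le_of_lt (Nat.mul_le_mul_right _ (Nat.le_succ o)) ho
    have h2 := ih ho' (g * t % m) (Nat.mod_lt _ hm) h1
    have h3 : ∀ k < n, dg k (T.getD t 0) ≤ 1048575 := by
      intro k hk
      have := hT t ht htc k hk
      omega
    have h4 : ∀ k < n, dg k (orb m g T o (g * t % m)) ≤ o * 1048575 := by
      intro k hk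
      rw [h2 k hk]
      have h5 : ∀ j ∈ range o, dg k (T.getD (itr m g j (g * t % m)) 0) ≤ 1048575 := by
        intro j _
        obtain ⟨h4, h5, -⟩ := itr_spec hm hg j _ (Nat.mod_lt _ hm) h1
        have := hT _ h4 h5 k hk
        omega
      calc ∑ j ∈ range o, dg k (T.getD (itr m g j (g * t % m)) 0)
          ≤ ∑ j ∈ range o, 1048575 := sum_le_sum h5
        _ = o * 1048575 := by rw [sum_const, card_range, smul_eq_mul]
    have h6 : 1048575 + o * 1048575 < ZZ :=
      lt_of_le_of_lt (by omega : 1048575 + o * 1048575 ≤ (o + 1) * 1048576) ho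
    rw [orb, dg_sum n _ _ _ _ h6 h3 h4 i hi, h2 i hi, Finset.sum_range_succ', add_comm]
    rfl

end Pool.Agent.FSP
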