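import Pool.Agent.FSP.GenT
import Pool.Agent.Helper9.Fermat.FProd

/-!
# Levels
-/

set_option autoImplicit false
set_option linter.unusedSectionVars false

namespace Pool.Agent.FSP

open Finset
open Pool.Agent.Helper9.Fermat (wt ee genW mem_all_one mem_all_two gen_of_wt card_even_of_wt
  neg_pow_of_odd wt_family)

/-- the list of all pairs -/
def KL : List (ℕ × ℕ) := [(2, 3), (2, 5), (2, 7), (3, 5), (3, 7), (3, 11), (3, 13), (5, 7), (2, 11),
  (2, 13), (3, 17), (3, 19)]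

theorem kill_of_mem {p q : ℕ} (h : (p, q) ∈ KL) : FSU.Kill P0 p q := by
  simp only [KL, List.mem_cons, List.not_mem_nil, or_false] at h
  simp only [FSU.Kill, P0, Set.mem_insert_iff, Set.mem_singleton_iff, List.mem_cons,
    List.not_mem_nil, or_false]
  tauto

theorem al_of {T : Finset ℕ} {e : ℕ} (hs : e.primeFactors ⊆ T) (hc : T.card ≤ 3)
    (h : ∀ p ∈ T, ∀ q ∈ T, p < q → (p, q) ∈ KL) : FSU.Al P0 e.primeFactors :=
  ⟨(card_le_card hs).trans hc, fun p hp q hq hpq => kill_of_mem (h p (hs hp) q (hs hq) hpq)⟩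

theorem pf_one (l a : ℕ) (hl : l.Prime) : (l ^ a).primeFactors ⊆ {l} := by
  intro r hr
  have hrp := Nat.prime_of_mem_primeFactors hr
  have hrd := Nat.dvd_of_mem_primeFactors hr
  rw [mem_singleton]
  exact (Nat.prime_dvd_prime_iff_eq hrp hl).1 (hrp.dvd_of_dvd_pow hrd)

theorem pf_two (l₁ l₂ a b : ℕ) (h₁ : l₁.Prime) (h₂ : l₂.Prime) :
    (l₁ ^ a * l₂ ^ b).primeFactors ⊆ {l₁, l₂} := by
  intro r hr
  have hrp := Nat.prime_of_mem_primeFactors hr
  have hrd := Nat.dvd_of_mem_primeFactors hr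
  rw [mem_insert, mem_singleton]
  rcases (hrp.dvd_mul).1 hrd with h | h
  · exact Or.inl ((Nat.prime_dvd_prime_iff_eq hrp h₁).1 (hrp.dvd_of_dvd_pow h))
  · exact Or.inr ((Nat.prime_dvd_prime_iff_eq hrp h₂).1 (hrp.dvd_of_dvd_pow h))

theorem pf_three (l₁ l₂ l₃ a b c : ℕ) (h₁ : l₁.Prime) (h₂ : l₂.Prime) (h₃ : l₃.Prime) :
    (l₁ ^ a * l₂ ^ b * l₃ ^ c).primeFactors ⊆ {l₁, l₂, l₃} := by
  intro r hr
  have hrp := Nat.prime_of_mem_primeFactors hr
  have hrd := Nat.dvd_of_mem_primeFactors hr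
  rw [mem_insert, mem_insert, mem_singleton]
  rcases (hrp.dvd_mul).1 hrd with h | h
  · rcases (hrp.dvd_mul).1 h with h | h
    · exact Or.inl ((Nat.prime_dvd_prime_iff_eq hrp h₁).1 (hrp.dvd_of_dvd_pow h))
    · exact Or.inr (Or.inl ((Nat.prime_dvd_prime_iff_eq hrp h₂).1 (hrp.dvd_of_dvd_pow h)))
  · exact Or.inr (Or.inr ((Nat.prime_dvd_prime_iff_eq hrp h₃).1 (hrp.dvd_of_dvd_pow h)))

theorem good_one {m m₀ : ℕ} [NeZero m] (hm : m = m₀) (h : FSU.Al P0 m₀.primeFactors) :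
    ∀ e, e ∣ m → FSU.Good P0 e := by
  intro e he
  have hm0 : m₀ ≠ 0 := hm ▸ NeZero.ne m
  have h1 := h.mono (Nat.primeFactors_mono (hm ▸ he) hm0)
  exact ⟨e, Or.inl rfl, h1.1, h1.2⟩

theorem good_two {m m₀ : ℕ} [NeZero m] (hm : m = 2 * m₀) (hodd : ¬ 2 ∣ m₀)
    (h : FSU.Al P0 m₀.primeFactors) : ∀ e, e ∣ m → FSU.Good P0 e := by
  intro e he
  have hm0 : m₀ ≠ 0 := by
    rintro rfl
    exact NeZero.ne m (by rw [hm, mul_zero])
  rw [hm] at he
  by_cases h2 : 2 ∣ e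
  · obtain ⟨e', rfl⟩ := h2
    have h3 : e' ∣ m₀ := Nat.dvd_of_mul_dvd_mul_left (by norm_num) he
    have h1 := h.mono (Nat.primeFactors_mono h3 hm0)
    exact ⟨e', Or.inr rfl, h1.1, h1.2⟩
  · have h3 : e ∣ m₀ := by
      refine Nat.Coprime.dvd_of_dvd_mul_left ?_ he
      rw [Nat.coprime_comm, Nat.Prime.coprime_iff_not_dvd Nat.prime_two]
      exact h2
    have h1 := h.mono (Nat.primeFactors_mono h3 hm0)
    exact ⟨e, Or.inl rfl, h1.1, h1.2⟩

/-- the theorem for the level `m` -/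
def TLev (m : ℕ) [NeZero m] : Prop :=
  ∀ (p : ℕ) (F : ℕ), IsUnit (p : ZMod m) → 0 < F → (p : ZMod m) ^ F = 1 →
    (∀ i : ℕ, (p : ZMod m) ^ i ≠ -1) → ∀ S : Multiset (ZMod m), (0 : ZMod m) ∉ S → S.sum = 0 →
      Even S.card → (∀ t : (ZMod m)ˣ, (S.map (wt p F (t : ZMod m))).sum = 0) → GenT P0 p m S

theorem tlev_of_lev {m : ℕ} [NeZero m] (h : Lev m) (hgood : ∀ e, e ∣ m → FSU.Good P0 e) :
    TLev m := by
  intro p F hp hF0 hF hneg S h0 hsum heven hwt
  refine h p _ (genT_sys P0 p m hgood) hp hneg S h0 hsum heven ⟨F, hF0, hF, fun t ht => ?_⟩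
  obtain ⟨u, rfl⟩ := ht
  rw [← wt_sum_eq]
  exact hwt u

theorem tlev_of_pp {n m : ℕ} [NeZero m] (hn : IsPrimePow n)
    (hm : m = n ∨ (Odd n ∧ m = 2 * n)) : TLev m := by
  intro p F hp hF0 hF hneg S h0 hsum heven hwt
  have hn0 : NeZero n := ⟨hn.ne_zero⟩
  obtain ⟨l, k, hl, hk, hlk⟩ := hn
  have hl' : l.Prime := hl.nat_prime
  have hpp : IsPrimePow n := ⟨l, k, hl, hk, hlk⟩
  have hsub : n.primeFactors ⊆ {l} := hlk ▸ pf_one l k hl'
  have hAl : FSU.Al P0 n.primeFactors := al_of hsub (by rw [card_singleton]; norm_num) (by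
    intro a ha b hb hab
    rw [mem_singleton] at ha hb
    omega)
  rcases hm with hm | ⟨hodd, hm⟩
  · have hm1 : m = 1 * n := by rw [hm, one_mul]
    refine sys_of_gen (genT_sys P0 p m (good_one hm hAl)) hp F hF0 hF S ?_
    refine gen_of_wt hpp hm1 (fun x => mem_all_one hl' hlk.symm hm1 x) hp F hF0 hF ?_ S h0 hsum
      heven hwt
    intro i hi
    apply hneg i
    have h1 : ((p ^ i + 1 : ℕ) : ZMod n) = 0 := by
      push_cast
      rw [hi]
      ring
    rw [ZMod.natCast_eq_zero_iff, ← hm] at h1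
    have h4 : ((p ^ i + 1 : ℕ) : ZMod m) = 0 := (ZMod.natCast_eq_zero_iff _ _).2 h1
    push_cast at h4
    exact eq_neg_of_add_eq_zero_left h4
  · have hl2 : l ≠ 2 := by
      rintro rfl
      rw [← hlk, Nat.odd_pow_iff hk.ne'] at hodd
      exact absurd hodd (by decide)
    have h2 : ¬ 2 ∣ n := by
      intro h
      obtain ⟨c, hc⟩ := hodd
      omega
    refine sys_of_gen (genT_sys P0 p m (good_two hm h2 hAl)) hp F hF0 hF S ?_
    exact gen_of_wt hpp hm (fun x => mem_all_two hl' hl2 hlk.symm hm x) hp F hF0 hF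
      (neg_pow_of_odd hodd hm hp hneg) S h0 hsum heven hwt

theorem tlev_pp {m : ℕ} [NeZero m] (l k : ℕ) (hl : l.Prime) (hk : 0 < k) (hm : m = l ^ k) :
    TLev m :=
  tlev_of_pp (n := l ^ k) ⟨l, k, hl.prime, hk, rfl⟩ (Or.inl hm)

theorem tlev_two_pp {m : ℕ} [NeZero m] (l k : ℕ) (hl : l.Prime) (hk : 0 < k) (hodd : Odd (l ^ k))
    (hm : m = 2 * l ^ k) : TLev m :=
  tlev_of_pp (n := l ^ k) ⟨l, k, hl.prime, hk, rfl⟩ (Or.inr ⟨hodd, hm⟩)

/-- the number of elements is even for odd prime powers -/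
theorem even_of_pp {n m : ℕ} [NeZero m] (hn : IsPrimePow n) (hodd : Odd n)
    (hm : m = n ∨ (Odd n ∧ m = 2 * n)) (p F : ℕ) (hp : IsUnit (p : ZMod m)) (hF0 : 0 < F)
    (hF : (p : ZMod m) ^ F = 1) (hneg : ∀ i : ℕ, (p : ZMod m) ^ i ≠ -1) (S : Multiset (ZMod m))
    (h0 : (0 : ZMod m) ∉ S) (hsum : S.sum = 0)
    (hwt : ∀ t : (ZMod m)ˣ, (S.map (wt p F (t : ZMod m))).sum = 0) : Even S.card := by
  have hn0 : NeZero n := ⟨hn.ne_zero⟩
  obtain ⟨l, k, hl, hk, hlk⟩ := hn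
  have hl' : l.Prime := hl.nat_prime
  have hpp : IsPrimePow n := ⟨l, k, hl, hk, hlk⟩
  rcases hm with hm | ⟨-, hm⟩
  · have hm1 : m = 1 * n := by rw [hm, one_mul]
    refine card_even_of_wt hpp hm1 (fun x => mem_all_one hl' hlk.symm hm1 x) hp F hF0 hF ?_ S h0
      hsum hodd (Or.inl rfl) hwt
    intro i hi
    apply hneg i
    have h1 : ((p ^ i + 1 : ℕ) : ZMod n) = 0 := by
      push_cast
      rw [hi]
      ring
    rw [ZMod.natCast_eq_zero_iff, ← hm] at h1
    have h4 : ((p ^ i + 1 : ℕ) : ZMod m) = 0 := (ZMod.natCast_eq_zero_iff _ _).2 h1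
    push_cast at h4
    exact eq_neg_of_add_eq_zero_left h4
  · have hl2 : l ≠ 2 := by
      rintro rfl
      rw [← hlk, Nat.odd_pow_iff hk.ne'] at hodd
      exact absurd hodd (by decide)
    exact card_even_of_wt hpp hm (fun x => mem_all_two hl' hl2 hlk.symm hm x) hp F hF0 hF
      (neg_pow_of_odd hodd hm hp hneg) S h0 hsum hodd (Or.inr rfl) hwt

/-- the main theorem for families of levels -/
theorem main_T {p : ℕ} [Fact p.Prime] {F : Type} [Field F] [Fintype F] [CharP F p]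
    {ι : Type} [Fintype ι] {n m : ι → ℕ} [∀ j, NeZero (m j)]
    (hn : ∀ j, IsPrimePow (n j) ∨ TLev (m j))
    (h1 : ∀ j k, j ≠ k → ¬ IsPrimePow (n j) → IsPrimePow (n k) ∧ Odd (n k))
    (hcop : Pairwise fun j k => Nat.Coprime (n j) (n k))
    (hm : ∀ j, m j = n j ∨ (Odd (n j) ∧ m j = 2 * n j))
    (hneg : ∀ j (i : ℕ), (p : ZMod (m j)) ^ i ≠ -1) (χ : ι → MulChar F ℂ)
    (hχ : ∀ j, orderOf (χ j) = m j) (ψ : AddChar F ℂ) (hψ : ψ ≠ 1)
    (S : ∀ j, Multiset (ZMod (m j))) (hS : IsTate χ ψ S) (j : ι) : GenT P0 p (m j) (S j) := by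
  classical
  obtain ⟨f, hfp⟩ := FiniteField.card F p
  have hfpos : 0 < (f : ℕ) := f.pos
  have hcard : Fintype.card F = p ^ (f : ℕ) := hfp.2
  -- `m j` divides `q - 1`
  have hdvd : ∀ j, m j ∣ Fintype.card F - 1 := by
    intro j
    rw [← hχ j]
    exact orderOf_dvd_of_pow_eq_one (by
      have h1 := MulChar.pow_card_eq_one (χ j)
      rwa [Fintype.card_units] at h1)
  have hpF : ∀ j, (p : ZMod (m j)) ^ (f : ℕ) = 1 := by
    intro j
    have h1 : ((Fintype.card F - 1 : ℕ) : ZMod (m j)) = 0 :=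
      (ZMod.natCast_eq_zero_iff _ _).2 (hdvd j)
    rw [Nat.cast_sub Fintype.card_pos, hcard, sub_eq_zero] at h1
    push_cast at h1
    exact h1
  have hp : ∀ j, IsUnit (p : ZMod (m j)) := fun j => IsUnit.of_pow_eq_one (hpF j) hfpos.ne'
  have hwt := wt_family hcard hfpos hcop hm χ hχ ψ hψ S hS hp
  obtain ⟨hS0, heven, -⟩ := hS
  -- parity
  have hodd : ∀ j, IsPrimePow (n j) → Odd (n j) → Even (S j).card := by
    intro j hj hj'
    exact even_of_pp hj hj' (hm j) p f (hp j) hfpos (hpF j) (hneg j) (S j) (hS0 j).1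
      (hS0 j).2 (hwt j)
  have hev : Even (S j).card := by
    by_cases hj : IsPrimePow (n j) ∧ Odd (n j)
    · exact hodd j hj.1 hj.2
    · have h2 : ∀ i, i ≠ j → Even (S i).card := by
        intro i hij
        by_cases hpj : IsPrimePow (n j)
        · have hje : ¬ Odd (n j) := fun h => hj ⟨hpj, h⟩
          have hpi : IsPrimePow (n i) := by
            by_contra hni
            exact hje (h1 i j hij hni).2
          refine hodd i hpi ?_
          rw [Nat.not_odd_iff_even] at hje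
          by_contra hi
          rw [Nat.not_odd_iff_even] at hi
          have h2 := hcop hij
          have h3 : 2 ∣ Nat.gcd (n i) (n j) := Nat.dvd_gcd hi.two_dvd hje.two_dvd
          rw [h2] at h3
          omega
        · have h3 := h1 j i (Ne.symm hij) hpj
          exact hodd i h3.1 h3.2
      rw [← Finset.add_sum_erase univ (fun i => (S i).card) (mem_univ j)] at heven
      have h3 : Even (∑ i ∈ univ.erase j, (S i).card) :=
        Finset.even_sum _ fun i hi => h2 i (ne_of_mem_erase hi)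
      exact (Nat.even_add.1 heven).2 h3
  have key : TLev (m j) := by
    rcases hn j with h | h
    · exact tlev_of_pp h (hm j)
    · exact h
  exact key p f (hp j) hfpos (hpF j) (hneg j) (S j) (hS0 j).1 (hS0 j).2 hev (hwt j)

end Pool.Agent.FSP
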