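import Pool.Agent.FSP.All

/-!
# The small levels
-/

set_option autoImplicit false

namespace Pool.Agent.FSP

theorem tlev_small (k : ℕ) [hk : NeZero k] (p : ℕ) (hneg : ∀ i : ℕ, (p : ZMod k) ^ i ≠ -1)
    (h : k ≤ 54 ∨ k ∈ [57, 60, 63, 66, 70, 72, 75, 78, 80, 84, 88, 90, 96, 100, 102, 108]) :
    TLev k := by
  rcases h with h | h
  · have h3 : 3 ≤ k := by
      by_contra hlt
      have h4 : k < 3 := by omega
      have h5 := hk.out
      interval_cases k
      · exact h5 rfl
      · exact hneg 0 (Subsingleton.elim _ _)
      · exact hneg 0 (by rw [pow_zero]; decide)
    interval_cases k
    · exact t3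
    · exact t4
    · exact t5
    · exact t6
    · exact t7
    · exact t8
    · exact t9
    · exact t10
    · exact t11
    · exact t12
    · exact t13
    · exact t14
    · exact t15
    · exact t16
    · exact t17
    · exact t18
    · exact t19
    · exact t20
    · exact t21
    · exact t22
    · exact t23
    · exact t24
    · exact t25
    · exact t26
    · exact t27
    · exact t28
    · exact t29
    · exact t30
    · exact t31
    · exact t32
    · exact t33
    · exact t34
    · exact t35
    · exact t36
    · exact t37
    · exact t38
    · exact t39
    · exact t40
    · exact t41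
    · exact t42
    · exact t43
    · exact t44
    · exact t45
    · exact t46
    · exact t47
    · exact t48
    · exact t49
    · exact t50
    · exact t51
    · exact t52
    · exact t53
    · exact t54
  · simp only [List.mem_cons, List.not_mem_nil, or_false] at h
    rcases h with rfl | rfl | rfl | rfl | rfl | rfl | rfl | rfl | rfl | rfl | rfl | rfl | rfl | rfl | rfl | rfl
    · exact t57
    · exact t60
    · exact t63
    · exact t66
    · exact t70
    · exact t72
    · exact t75
    · exact t78
    · exact t80
    · exact t84
    · exact t88
    · exact t90
    · exact t96
    · exact t100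
    · exact t102
    · exact t108

end Pool.Agent.FSP
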