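import Pool.Agent.FSP.Table
import Pool.Agent.FSU.RMain
import Pool.Agent.FSP.Defs
import Pool.Agent.Helper9.Fermat.FProd

/-!
# The system of algebraic characters of Fermat varieties over finite fields
-/

set_option autoImplicit false
set_option linter.unusedSectionVars false

namespace Pool.Agent.FSP

open Finset
open Pool.Agent.Helper9.Fermat (sw sw_neg sw_zero sw_of_ne wt wt_gen Gen)
open Pool.Agent.FS (IsHodge)

section dbl

variable {m : ℕ} [NeZero m]

theorem dbl_zero : dbl (0 : ZMod m) = 0 := by simp [dbl]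

theorem dbl_val (x : ZMod m) : (dbl x).val = 2 * x.val := by
  rw [dbl, ZMod.val_natCast, Nat.mod_eq_of_lt]
  have := ZMod.val_lt x
  omega

theorem dbl_ne_zero {x : ZMod m} (hx : x ≠ 0) : dbl x ≠ 0 := by
  intro h
  have h1 := dbl_val x
  rw [h, ZMod.val_zero] at h1
  exact hx ((ZMod.val_eq_zero x).1 (by omega))

theorem dbl_neg (x : ZMod m) : dbl (-x) = - dbl x := by
  by_cases hx : x = 0
  · rw [hx, neg_zero, dbl_zero, neg_zero]
  · have : NeZero x := ⟨hx⟩
    rw [dbl, dbl, ZMod.val_neg_of_ne_zero, eq_neg_iff_add_eq_zero, ← Nat.cast_add]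
    have h1 := ZMod.val_lt x
    have h2 : 2 * (m - x.val) + 2 * x.val = 2 * m := by omega
    rw [h2]
    exact ZMod.natCast_self (2 * m)

theorem mul_dbl_val (t : ZMod (2 * m)) (x : ZMod m) :
    (t * dbl x).val = 2 * (((t.val : ℕ) : ZMod m) * x).val := by
  have h1 : t * dbl x = ((t.val * (2 * x.val) : ℕ) : ZMod (2 * m)) := by
    rw [dbl]
    push_cast
    rw [ZMod.natCast_zmod_val]
  have h2 : ((t.val : ℕ) : ZMod m) * x = ((t.val * x.val : ℕ) : ZMod m) := by
    push_cast
    rw [ZMod.natCast_zmod_val]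
  rw [h1, h2, ZMod.val_natCast, ZMod.val_natCast, show t.val * (2 * x.val) = 2 * (t.val * x.val) by
    ring, Nat.mul_mod_mul_left]

theorem dbl_order (x : ZMod m) : addOrderOf (dbl x) ∣ m := by
  rw [addOrderOf_dvd_iff_nsmul_eq_zero, dbl, nsmul_eq_mul, ← Nat.cast_mul,
    ZMod.natCast_eq_zero_iff]
  exact ⟨x.val, by ring⟩

theorem unit_red (t : (ZMod (2 * m))ˣ) : IsUnit (((t : ZMod (2 * m)).val : ℕ) : ZMod m) := by
  rw [ZMod.isUnit_iff_coprime]
  exact Nat.Coprime.coprime_dvd_right (Dvd.intro_left 2 rfl) (ZMod.val_coe_unit_coprime t)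

/-- sums of the sawtooth function -/
theorem Wm_eq (t : ZMod m) (ht : IsUnit t) (S : Multiset (ZMod m)) (h0 : (0 : ZMod m) ∉ S) :
    Wm t S = 2 * (((S.map fun x => (t * x).val).sum : ℕ) : ℤ) - m * S.card := by
  induction S using Multiset.induction_on with
  | empty => simp [Wm]
  | cons x S ih =>
    rw [Multiset.mem_cons, not_or] at h0
    have h1 : t * x ≠ 0 := by
      intro h
      exact h0.1 ((ht.mul_right_eq_zero).1 h).symm
    have h2 : Wm t (x ::ₘ S) = sw (t * x) + Wm t S := by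
      rw [Wm, Wm, Multiset.map_cons, Multiset.sum_cons]
    rw [h2, ih h0.2, sw_of_ne h1, Multiset.map_cons, Multiset.sum_cons, Multiset.card_cons]
    push_cast
    ring

theorem isHodge_dbl (S : Multiset (ZMod m)) (h0 : (0 : ZMod m) ∉ S) (hS : HodgeC S) :
    IsHodge (S.map dbl) := by
  intro t
  rw [Multiset.map_map, Multiset.card_map]
  have h1 : ((fun x => ((t : ZMod (2 * m)) * x).val) ∘ dbl : ZMod m → ℕ) =
      fun x => 2 * ((((t : ZMod (2 * m)).val : ℕ) : ZMod m) * x).val := by
    funext x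
    exact mul_dbl_val _ _
  rw [h1, Multiset.sum_map_mul_left]
  have h2 := hS _ (unit_red t)
  rw [Wm_eq _ (unit_red t) S h0, sub_eq_zero] at h2
  have h3 : 2 * (S.map fun x => ((((t : ZMod (2 * m)).val : ℕ) : ZMod m) * x).val).sum =
      m * S.card := by exact_mod_cast h2
  rw [h3, mul_assoc]

theorem even_of_hodge (S : Multiset (ZMod m)) (h0 : (0 : ZMod m) ∉ S) (hsum : S.sum = 0)
    (hS : HodgeC S) : Even S.card := by
  have h2 := hS 1 isUnit_one
  rw [Wm_eq _ isUnit_one S h0, sub_eq_zero] at h2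
  have h3 : 2 * (S.map fun x => (1 * x).val).sum = m * S.card := by exact_mod_cast h2
  have h4 : m ∣ (S.map fun x => (1 * x).val).sum := by
    rw [← ZMod.natCast_eq_zero_iff, Nat.cast_multiset_sum, Multiset.map_map, ← hsum]
    congr 1
    conv_rhs => rw [← Multiset.map_id S]
    refine Multiset.map_congr rfl fun x _ => ?_
    simp
  obtain ⟨c, hc⟩ := h4
  rw [hc] at h3
  have hm : 0 < m := Nat.pos_of_ne_zero (NeZero.ne m)
  have h5 : S.card = 2 * c := by
    have h6 : m * (2 * c) = m * S.card := by linarith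
    exact (Nat.eq_of_mul_eq_mul_left hm h6).symm
  rw [h5]
  exact even_two_mul c

end dbl

/-- weights -/
theorem wt_sum_eq {m : ℕ} [NeZero m] (p F : ℕ) (t : ZMod m) (S : Multiset (ZMod m)) :
    (S.map (wt p F t)).sum = ∑ j ∈ range F, Wm ((p : ZMod m) ^ j * t) S := by
  induction S using Multiset.induction_on with
  | empty => simp [Wm]
  | cons x S ih =>
    have h2 : ∀ s : ZMod m, Wm s (x ::ₘ S) = sw (s * x) + Wm s S := by
      intro s
      rw [Wm, Wm, Multiset.map_cons, Multiset.sum_cons]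
    rw [Multiset.map_cons, Multiset.sum_cons, ih, sum_congr rfl fun j _ => h2 _, sum_add_distrib]
    congr 1
    rw [wt]
    refine sum_congr rfl fun j _ => ?_
    rw [mul_assoc]

theorem tateN_of_tateC {p m : ℕ} [NeZero m] (S : Multiset (ZMod m)) (h0 : (0 : ZMod m) ∉ S)
    (h : TateC p S) : TateN p S := by
  obtain ⟨F, hF0, hF, hT⟩ := h
  refine ⟨F, hF0, hF, fun t => ?_⟩
  have hp : IsUnit (p : ZMod m) := IsUnit.of_pow_eq_one hF hF0.ne'
  have h1 := hT (t : ZMod m) t.isUnit
  rw [← wt_sum_eq, Pool.Agent.Helper9.Fermat.wt_sum p F hp _ t.isUnit S h0, sub_eq_zero] at h1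
  exact_mod_cast h1

theorem genT_sys (P : Set (ℕ × ℕ)) (p m : ℕ) [NeZero m]
    (hgood : ∀ e, e ∣ m → FSU.Good P e) : Sys p (GenT P p m) where
  nz := by
    intro S hS
    induction hS with
    | lift S hS =>
      intro h
      have h1 := (FSU.Quot.basic hS).1
      exact h1 (Multiset.mem_map.2 ⟨0, h, dbl_zero⟩)
    | curves x y z x' y' z' hx hy hz hx' hy' hz' h h' hT =>
      simp only [Multiset.insert_eq_cons, Multiset.mem_cons, Multiset.mem_singleton, not_or]
      exact ⟨hx.symm, hy.symm, hz.symm, hx'.symm, hy'.symm, hz'.symm⟩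
    | join S T hS hT h1 h2 =>
      rw [Multiset.mem_add, not_or]
      exact ⟨h1, h2⟩
    | cancel S x hx hS h1 =>
      rw [Multiset.mem_add, not_or] at h1
      exact h1.1
  pair := by
    intro x hx
    refine GenT.lift _ ?_
    have h1 : ({x, -x} : Multiset (ZMod m)).map dbl = {dbl x, - dbl x} := by
      simp [Multiset.insert_eq_cons, dbl_neg]
    rw [h1]
    exact FSU.Gen.pair _ (dbl_ne_zero hx)
  curves := fun x y z x' y' z' h1 h2 h3 h4 h5 h6 h7 h8 h9 =>
    GenT.curves x y z x' y' z' h1 h2 h3 h4 h5 h6 h7 h8 (tateN_of_tateC _ (by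
      simp only [Multiset.insert_eq_cons, Multiset.mem_cons, Multiset.mem_singleton, not_or]
      exact ⟨h1.symm, h2.symm, h3.symm, h4.symm, h5.symm, h6.symm⟩) h9)
  hodge := by
    intro S h0 hsum hS
    refine GenT.lift _ ?_
    refine FSU.mainX P (2 * m) (even_two_mul m) (S.map dbl) ?_ ?_ ?_ (isHodge_dbl S h0 hS)
    · intro h
      rw [Multiset.mem_map] at h
      obtain ⟨x, hx, hx0⟩ := h
      exact dbl_ne_zero (fun h => h0 (h ▸ hx)) hx0
    · rw [Multiset.card_map]
      exact even_of_hodge S h0 hsum hS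
    · intro y hy
      rw [Multiset.mem_map] at hy
      obtain ⟨x, -, rfl⟩ := hy
      refine ⟨addOrderOf (dbl x), 1, (mul_one _).symm, hgood _ (dbl_order x), ?_⟩
      intro r hr hr1
      exact absurd (Nat.dvd_one.1 hr1) hr.one_lt.ne'
  join := fun S T hS hT => GenT.join S T hS hT
  cancel := fun S x hx hS => GenT.cancel S x hx hS

/-- The system of the prime power case is contained in every system of characters with the
properties `Sys`. -/
theorem sys_of_gen {p m : ℕ} [NeZero m] {G : Multiset (ZMod m) → Prop} (hG : Sys p G)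
    (hp : IsUnit (p : ZMod m)) (F : ℕ) (hF0 : 0 < F) (hF : (p : ZMod m) ^ F = 1)
    (S : Multiset (ZMod m)) (hS : Gen p m S) : G S := by
  induction hS with
  | pair x hx => exact hG.pair x hx
  | graph x y z hx hy hz h =>
    have h1 : ∀ u : ZMod m, u ≠ 0 → -((p : ZMod m) * u) ≠ 0 := by
      intro u hu h2
      rw [neg_eq_zero] at h2
      exact hu ((hp.mul_right_eq_zero).1 h2)
    refine hG.curves x y z _ _ _ hx hy hz (h1 x hx) (h1 y hy) (h1 z hz) h
      (by linear_combination -(p : ZMod m) * h) ⟨F, hF0, hF, fun t ht => ?_⟩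
    rw [← wt_sum_eq]
    exact wt_gen hp hF t ht _ (Gen.graph x y z hx hy hz h)
  | standard r hr hrm x hx =>
    have hs1 : Gen 1 m ((univ.filter fun z : ZMod m => (r : ZMod m) * z = r * x).val +
        {-(r * x)} + (if r = 2 then {((m / 2 : ℕ) : ZMod m)} else 0)) :=
      Gen.standard r hr hrm x hx
    have hb := hs1.basic (p := 1) (by simp)
    refine hG.hodge _ hb.1 hb.2.2 fun t ht => ?_
    have h1 := wt_gen (p := 1) (F := 1) (by simp) (by simp) t ht _ hs1
    rw [wt_sum_eq] at h1
    simpa using h1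
  | join S T hS hT h1 h2 => exact hG.join S T h1 h2
  | cancel S x hx hS h1 => exact hG.cancel S x hx h1

end Pool.Agent.FSP
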