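import Pool.Agent.FSP.Digits

/-!
# Soundness of the certificates
-/

set_option autoImplicit false
set_option linter.unusedSectionVars false

namespace Pool.Agent.FSP

open Finset
open Pool.Agent.Helper9.Fermat (sw sw_neg sw_zero)

section basic

variable {m : ℕ} [NeZero m]

/-- the sum of the values of the sawtooth function at `t y` for `y` in a list -/
noncomputable def Ls (t : ZMod m) (l : List ℕ) : ℤ := (l.map fun y : ℕ => sw (t * (y : ZMod m))).sum

/-- the function of a pair of lists -/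
noncomputable def Bf (b : List ℕ × List ℕ) (t : ZMod m) : ℤ := Ls t b.1 - Ls t b.2

theorem Ls_neg (t : ZMod m) (l : List ℕ) : Ls (-t) l = - Ls t l := by
  induction l with
  | nil => simp [Ls]
  | cons y l ih =>
    have h1 : ∀ s : ZMod m, Ls s (y :: l) = sw (s * (y : ZMod m)) + Ls s l := by
      intro s
      rw [Ls, Ls, List.map_cons, List.sum_cons]
    rw [h1, h1, ih, neg_mul, sw_neg]
    ring

theorem Bf_neg (b : List ℕ × List ℕ) (t : ZMod m) : Bf b (-t) = - Bf b t := by
  rw [Bf, Bf, Ls_neg, Ls_neg]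
  ring

theorem ne_of_mod {a : ℕ} (ha : a % m ≠ 0) : (a : ZMod m) ≠ 0 := by
  intro h
  exact ha (Nat.mod_eq_zero_of_dvd ((ZMod.natCast_eq_zero_iff a m).1 h))

theorem Ls_eq (t : ℕ) (ht : IsUnit (t : ZMod m)) (l : List ℕ) (hl : ∀ y ∈ l, y % m ≠ 0) :
    Ls (t : ZMod m) l = 2 * (resN m t l : ℤ) - m * (l.length : ℤ) := by
  induction l with
  | nil => simp [Ls, resN]
  | cons y l ih =>
    have h1 : Ls (t : ZMod m) (y :: l) = sw ((t : ZMod m) * (y : ZMod m)) + Ls (t : ZMod m) l := by
      rw [Ls, Ls, List.map_cons, List.sum_cons]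
    have h2 : (y : ZMod m) ≠ 0 := ne_of_mod (hl y List.mem_cons_self)
    have h3 : (t : ZMod m) * (y : ZMod m) ≠ 0 := by
      intro h
      exact h2 (ht.mul_right_eq_zero.1 h)
    rw [h1, ih fun z hz => hl z (List.mem_cons_of_mem _ hz), sw, if_neg h3, resN,
      List.length_cons]
    have h4 : ((t : ZMod m) * (y : ZMod m)).val = t * y % m := by
      rw [← Nat.cast_mul, ZMod.val_natCast]
    rw [h4]
    push_cast
    ring

end basic

/-! ### lists -/

theorem comb_zero (C : ℕ → ℤ) (n : ℕ) (es : List ℤ) (rs : List (List ℤ))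
    (h : ∀ r ∈ rs, ∑ j ∈ range n, C j * r.getD j 0 = 0) :
    ∑ j ∈ range n, C j * comb j es rs = 0 := by
  induction es generalizing rs with
  | nil => exact sum_eq_zero fun j _ => by simp [comb]
  | cons e es ih =>
    cases rs with
    | nil => exact sum_eq_zero fun j _ => by simp [comb]
    | cons r rs =>
      have h1 : ∀ j ∈ range n, C j * comb j (e :: es) (r :: rs) =
          e * (C j * r.getD j 0) + C j * comb j es rs := by
        intro j _
        rw [comb]
        ring
      rw [sum_congr rfl h1, sum_add_distrib, ← mul_sum, h r List.mem_cons_self,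
        ih rs fun q hq => h q (List.mem_cons_of_mem _ hq)]
      simp

/-! ### the theorem -/

variable {m : ℕ} [NeZero m]

/-- the parts of the check -/
structure Cert.OK (m : ℕ) (c : Cert) : Prop where
  rel : ∀ b ∈ c.rel, relOK m b = true
  nz : ∀ b ∈ c.rel ++ c.com, nzOK m b = true
  tab : ∀ t < m, Nat.gcd t m = 1 → tabRow m t (c.rel ++ c.com) (c.T.getD t 0) = true
  alen : c.a.length = c.r
  coef : ∀ x < m - 1, congN m (x + 1) c.a c.b (c.W.getD (x + 1) 0) = true ∧
    ∀ t < m, Nat.gcd t m = 1 →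
      dotN c.r (c.W.getD (x + 1) 0) (c.T.getD t 0) + c.r * 524288 * 524288 + 2 * m * m =
        4 * m * (t * (x + 1) % m) + 524288 * (sumN c.r (c.W.getD (x + 1) 0) +
          sumN c.r (c.T.getD t 0))
  nrel : ∀ t < m, Nat.gcd t m = 1 →
    zeroDig (c.o * 524288) c.rel.length (orb m c.g c.T c.o t) = true
  ob : c.o * 1048576 < ZZ
  bnd : ∀ t < m, Nat.gcd t m = 1 → bndDig c.r (c.T.getD t 0) = true
  gc : Nat.gcd c.g m = 1
  tlc : ∀ t ∈ c.tl, Nat.gcd t m = 1 ∧ t < m
  nn : c.N = c.tl.map (fun t => digs (c.o * 524288) c.com.length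
    (orb m c.g c.T c.o t / 4294967296 ^ c.rel.length))
  inv : ∀ i < c.com.length, ∀ j < c.com.length,
    (i = j → comb j (c.E.getD i []) c.N ≠ 0) ∧ (i ≠ j → comb j (c.E.getD i []) c.N = 0)

theorem of_unit_imp {t m : ℕ} {b : Bool} (h : (!(Nat.gcd t m == 1) || b) = true)
    (ht : Nat.gcd t m = 1) : b = true := by
  rw [ht] at h
  simpa using h

theorem Cert.ok_of_check (m : ℕ) (c : Cert) (h1 : c.check1 m = true) (h2 : c.check2 m = true)
    (h3 : c.check3 m = true) : c.OK m := by
  simp only [Cert.check1, Bool.and_eq_true] at h1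
  simp only [Cert.check2, Bool.and_eq_true] at h2
  simp only [Cert.check3, Bool.and_eq_true] at h3
  obtain ⟨⟨a1, a2⟩, a3⟩ := h1
  obtain ⟨b1, b2⟩ := h2
  obtain ⟨⟨⟨⟨⟨⟨⟨c1, c2⟩, c3⟩, c4⟩, c5⟩, c6⟩, -⟩, c8⟩ := h3
  refine ⟨List.all_eq_true.1 a1, List.all_eq_true.1 a2, ?_, beq_iff_eq.1 b1, ?_, ?_, ?_, ?_,
    beq_iff_eq.1 c4, ?_, beq_iff_eq.1 c6, ?_⟩
  · intro t ht hg
    exact of_unit_imp (List.all_eq_true.1 a3 t (List.mem_range.2 ht)) hg
  · intro x hx
    have h4 := List.all_eq_true.1 b2 x (List.mem_range.2 hx)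
    rw [Bool.and_eq_true] at h4
    refine ⟨h4.1, fun t ht hg => ?_⟩
    exact beq_iff_eq.1 (of_unit_imp (List.all_eq_true.1 h4.2 t (List.mem_range.2 ht)) hg)
  · intro t ht hg
    exact of_unit_imp (List.all_eq_true.1 c1 t (List.mem_range.2 ht)) hg
  · rw [Nat.blt_eq] at c2
    exact c2
  · intro t ht hg
    exact of_unit_imp (List.all_eq_true.1 c3 t (List.mem_range.2 ht)) hg
  · intro t ht
    have h4 := List.all_eq_true.1 c5 t ht
    rw [Bool.and_eq_true, beq_iff_eq, Nat.blt_eq] at h4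
    exact h4
  · intro i hi j hj
    have h4 := List.all_eq_true.1 (List.all_eq_true.1 c8 i (List.mem_range.2 hi)) j
      (List.mem_range.2 hj)
    constructor
    · intro hij
      rw [if_pos hij] at h4
      intro h5
      rw [h5] at h4
      simp at h4
    · intro hij
      rw [if_neg hij] at h4
      exact beq_iff_eq.1 h4

section main

variable (c : Cert) (hc : c.OK m)

/-- the functions -/
noncomputable def Cert.B (c : Cert) (i : ℕ) (t : ZMod m) : ℤ :=
  Bf ((c.rel ++ c.com).getD i ([], [])) t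

/-- the coefficients -/
def Cert.co (c : Cert) (x : ZMod m) (i : ℕ) : ℤ := (dg i (c.W.getD x.val 0) : ℤ) - 524288

theorem gcd_val {t : ZMod m} (ht : IsUnit t) : Nat.gcd t.val m = 1 := by
  have h1 := ZMod.isUnit_iff_coprime t.val m
  rw [ZMod.natCast_zmod_val] at h1
  exact h1.1 ht

include hc

/-- the digits of the rows -/
theorem row_eq (t : ℕ) (ht : t < m) (hg : Nat.gcd t m = 1) (i : ℕ) (hi : i < c.r) :
    (dg i (c.T.getD t 0) : ℤ) = 524288 + c.B i (t : ZMod m) := by
  have hi' : i < (c.rel ++ c.com).length := by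
    rw [List.length_append]
    exact hi
  have h1 := tabRow_spec _ _ (hc.tab t ht hg) i hi'
  have hu : IsUnit (t : ZMod m) := (ZMod.isUnit_iff_coprime t m).2 hg
  have hb := hc.nz _ (List.getElem_mem hi')
  have h2 : (c.rel ++ c.com).getD i ([], []) = (c.rel ++ c.com)[i] := by
    rw [List.getD_eq_getElem?_getD, List.getElem?_eq_getElem hi', Option.getD_some]
  rw [Cert.B, h2]
  rw [nzOK, Bool.and_eq_true] at hb
  have h3 : ∀ l : List ℕ, (l.all fun y => !(y % m == 0)) = true → ∀ y ∈ l, y % m ≠ 0 := by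
    intro l hl y hy
    have := List.all_eq_true.1 hl y hy
    simpa using this
  rw [Bf, Ls_eq t hu _ (h3 _ hb.1), Ls_eq t hu _ (h3 _ hb.2)]
  have h4 : ((dg i (c.T.getD t 0) + 2 * resN m t ((c.rel ++ c.com)[i]).2 +
      m * ((c.rel ++ c.com)[i]).1.length : ℕ) : ℤ) = ((524288 + 2 * resN m t
      ((c.rel ++ c.com)[i]).1 + m * ((c.rel ++ c.com)[i]).2.length : ℕ) : ℤ) := by
    rw [h1]
  push_cast at h4
  linarith

theorem ident (t : ZMod m) (ht : IsUnit t) (x : ZMod m) (hx : x ≠ 0) :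
    ∑ i ∈ range c.r, c.co x i * c.B i t = 2 * m * sw (t * x) := by
  have hval : 0 < x.val := by
    rw [Nat.pos_iff_ne_zero]
    intro h
    exact hx ((ZMod.val_eq_zero x).1 h)
  have hxm := ZMod.val_lt x
  have hg := gcd_val ht
  have h1 := (hc.coef (x.val - 1) (by omega)).2 t.val (ZMod.val_lt t) hg
  rw [show x.val - 1 + 1 = x.val by omega, dotN_eq, sumN_eq, sumN_eq] at h1
  have h2 : t * x ≠ 0 := by
    intro h
    exact hx (ht.mul_right_eq_zero.1 h)
  have h3 : (t * x).val = t.val * x.val % m := ZMod.val_mul t x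
  rw [sw, if_neg h2, h3]
  have h4 : ((∑ i ∈ range c.r, dg i (c.W.getD x.val 0) * dg i (c.T.getD t.val 0) +
      c.r * 524288 * 524288 + 2 * m * m : ℕ) : ℤ) = ((4 * m * (t.val * x.val % m) +
      524288 * (∑ i ∈ range c.r, dg i (c.W.getD x.val 0) +
        ∑ i ∈ range c.r, dg i (c.T.getD t.val 0)) : ℕ) : ℤ) := by
    rw [h1]
  push_cast at h4
  have h5 : ∑ i ∈ range c.r, c.co x i * c.B i t =
      ∑ i ∈ range c.r, ((dg i (c.W.getD x.val 0) : ℤ) * (dg i (c.T.getD t.val 0) : ℤ) -
        524288 * ((dg i (c.W.getD x.val 0) : ℤ) + (dg i (c.T.getD t.val 0) : ℤ)) +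
        524288 * 524288) := by
    refine sum_congr rfl fun i hi => ?_
    have h6 := row_eq c hc t.val (ZMod.val_lt t) hg i (mem_range.1 hi)
    rw [ZMod.natCast_zmod_val] at h6
    have h7 : c.B i t = (dg i (c.T.getD t.val 0) : ℤ) - 524288 := by linarith
    rw [Cert.co, h7]
    ring
  rw [h5, sum_add_distrib, sum_sub_distrib, ← mul_sum, sum_add_distrib, sum_const, card_range,
    nsmul_eq_mul]
  push_cast
  linarith

theorem exists_coef (S : Multiset (ZMod m)) (h0 : (0 : ZMod m) ∉ S) (hsum : S.sum = 0)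
    (heven : Even S.card) (i : ℕ) (hi : i < c.r) :
    ∃ C : ℤ, (S.map fun x => c.co x i).sum = 2 * m * C := by
  have h1 : ∀ x ∈ S, (2 * (m : ℤ)) ∣
      c.co x i - (2 * c.a.getD i 0 * (x.val : ℤ) + m * c.b.getD i 0) := by
    intro x hx
    have hx0 : x ≠ 0 := fun h => h0 (h ▸ hx)
    have hval : 0 < x.val := by
      rw [Nat.pos_iff_ne_zero]
      intro h
      exact hx0 ((ZMod.val_eq_zero x).1 h)
    have hxm := ZMod.val_lt x
    have h1 := congN_spec _ _ _ (hc.coef (x.val - 1) (by omega)).1 i (by rw [hc.alen]; exact hi)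
    rw [show x.val - 1 + 1 = x.val by omega] at h1
    have h2 : ((2 * m : ℕ) : ℤ) ∣ ((dg i (c.W.getD x.val 0) : ℕ) : ℤ) -
        ((524288 + 2 * c.a.getD i 0 * x.val + m * c.b.getD i 0 : ℕ) : ℤ) :=
      (Nat.modEq_iff_dvd.1 h1.symm)
    push_cast at h2
    rw [Cert.co]
    have h3 : (dg i (c.W.getD x.val 0) : ℤ) - 524288 -
        (2 * c.a.getD i 0 * (x.val : ℤ) + m * c.b.getD i 0) =
        (dg i (c.W.getD x.val 0) : ℤ) - (524288 + 2 * c.a.getD i 0 * (x.val : ℤ) +
          m * c.b.getD i 0) := by ring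
    rw [h3]
    exact h2
  have h2 : (2 * (m : ℤ)) ∣ (S.map fun x => c.co x i -
      (2 * c.a.getD i 0 * (x.val : ℤ) + m * c.b.getD i 0)).sum := by
    refine Multiset.dvd_sum ?_
    intro z hz
    rw [Multiset.mem_map] at hz
    obtain ⟨x, hx, rfl⟩ := hz
    exact h1 x hx
  have h3 : (m : ℤ) ∣ (S.map fun x => (x.val : ℤ)).sum := by
    have h4 : (((S.map fun x => x.val).sum : ℕ) : ZMod m) = 0 := by
      rw [← hsum]
      rw [Nat.cast_multiset_sum, Multiset.map_map]
      congr 1
      conv_rhs => rw [← Multiset.map_id S]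
      refine Multiset.map_congr rfl fun x _ => ?_
      simp
    rw [ZMod.natCast_eq_zero_iff] at h4
    have h5 : (((S.map fun x => x.val).sum : ℕ) : ℤ) = (S.map fun x => (x.val : ℤ)).sum := by
      rw [Nat.cast_multiset_sum, Multiset.map_map]
      rfl
    rw [← h5]
    exact_mod_cast h4
  have h6 : (S.map fun x => c.co x i -
      (2 * c.a.getD i 0 * (x.val : ℤ) + m * c.b.getD i 0)).sum =
      (S.map fun x => c.co x i).sum - (2 * c.a.getD i 0 * (S.map fun x => (x.val : ℤ)).sum +
        m * c.b.getD i 0 * S.card) := by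
    rw [Multiset.sum_map_sub, Multiset.sum_map_add, Multiset.sum_map_mul_left,
      Multiset.map_const', Multiset.sum_replicate, nsmul_eq_mul]
    ring
  obtain ⟨k, hk⟩ := h3
  obtain ⟨e, he⟩ := heven
  obtain ⟨d, hd⟩ := h2
  rw [h6, hk, he] at hd
  refine ⟨d + c.a.getD i 0 * k + c.b.getD i 0 * e, ?_⟩
  push_cast at hd
  linear_combination hd

/-- the sums over the powers of `g` -/
theorem orb_eq (t : ℕ) (ht : t < m) (hg : Nat.gcd t m = 1) (i : ℕ) (hi : i < c.r) :
    (dg i (orb m c.g c.T c.o t) : ℤ) = c.o * 524288 +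
      ∑ j ∈ range c.o, c.B i ((c.g : ZMod m) ^ j * (t : ZMod m)) := by
  have hm : 0 < m := Nat.pos_of_ne_zero (NeZero.ne m)
  rw [orb_spec hm hc.gc c.T c.r (fun t ht hg i hi => bndDig_spec (hc.bnd t ht hg) i hi) c.o
    hc.ob t ht hg i hi]
  push_cast
  have h1 : ∀ j ∈ range c.o, ((dg i (c.T.getD (itr m c.g j t) 0) : ℕ) : ℤ) =
      524288 + c.B i ((c.g : ZMod m) ^ j * (t : ZMod m)) := by
    intro j _
    obtain ⟨h2, h3, h4⟩ := itr_spec hm hc.gc j t ht hg
    rw [row_eq c hc _ h2 h3 i hi, h4]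
  rw [sum_congr rfl h1, sum_add_distrib, sum_const, card_range, nsmul_eq_mul]

/-- the functions of the relations have vanishing sums -/
theorem rel_zero (b : List ℕ × List ℕ) (hb : b ∈ c.rel) (t : ZMod m) (ht : IsUnit t) :
    ∑ j ∈ range c.o, Bf b ((c.g : ZMod m) ^ j * t) = 0 := by
  obtain ⟨i, hi, rfl⟩ := List.getElem_of_mem hb
  have hg := gcd_val ht
  have hir : i < c.r := by
    rw [Cert.r]
    omega
  have h1 := zeroDig_spec (hc.nrel t.val (ZMod.val_lt t) hg) i hi
  have h2 := orb_eq c hc t.val (ZMod.val_lt t) hg i hir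
  rw [h1, ZMod.natCast_zmod_val] at h2
  push_cast at h2
  have h3 : ∀ s : ZMod m, c.B i s = Bf (c.rel[i]) s := by
    intro s
    rw [Cert.B, List.getD_eq_getElem?_getD, List.getElem?_append_left hi,
      List.getElem?_eq_getElem hi, Option.getD_some]
  rw [sum_congr rfl fun j _ => h3 _] at h2
  linarith

/-- the main result on certificates -/
theorem sound (S : Multiset (ZMod m)) (h0 : (0 : ZMod m) ∉ S) (hsum : S.sum = 0)
    (heven : Even S.card)
    (hT : ∀ t : ZMod m, IsUnit t →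
      ∑ j ∈ range c.o, (S.map fun x => sw ((c.g : ZMod m) ^ j * t * x)).sum = 0) :
    ∃ C : ℕ → ℤ, ∀ t : ZMod m, IsUnit t → (S.map fun x => sw (t * x)).sum =
      ∑ i ∈ range c.rel.length, C i * Bf (c.rel.getD i ([], [])) t := by
  classical
  have hgu : IsUnit (c.g : ZMod m) := (ZMod.isUnit_iff_coprime c.g m).2 hc.gc
  have hm0 : (0 : ℤ) < m := by exact_mod_cast Nat.pos_of_ne_zero (NeZero.ne m)
  have hC0 : ∀ i, ∃ C : ℤ, i < c.r → (S.map fun x => c.co x i).sum = 2 * m * C := by
    intro i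
    by_cases hi : i < c.r
    · obtain ⟨C, hC⟩ := exists_coef c hc S h0 hsum heven i hi
      exact ⟨C, fun _ => hC⟩
    · exact ⟨0, fun h => absurd h hi⟩
  choose C hC using hC0
  -- the identity for the sum over `S`
  have h1 : ∀ t : ZMod m, IsUnit t → (S.map fun x => sw (t * x)).sum =
      ∑ i ∈ range c.r, C i * c.B i t := by
    intro t ht
    have h2 : (S.map fun x => ∑ i ∈ range c.r, c.co x i * c.B i t).sum =
        (S.map fun x => 2 * (m : ℤ) * sw (t * x)).sum := by
      congr 1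
      refine Multiset.map_congr rfl fun x hx => ?_
      exact ident c hc t ht x fun h => h0 (h ▸ hx)
    rw [Multiset.sum_map_mul_left, Multiset.sum_map_sum] at h2
    have h3 : ∀ i ∈ range c.r, (S.map fun x => c.co x i * c.B i t).sum =
        2 * m * (C i * c.B i t) := by
      intro i hi
      rw [Multiset.sum_map_mul_right, hC i (mem_range.1 hi)]
      ring
    rw [sum_congr rfl h3, ← mul_sum] at h2
    have h4 : (2 * (m : ℤ)) ≠ 0 := by omega
    exact (mul_left_cancel₀ h4 h2).symm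
  have hBrel : ∀ i, i < c.rel.length → ∀ t : ZMod m,
      c.B i t = Bf (c.rel.getD i ([], [])) t := by
    intro i hi t
    rw [Cert.B, List.getD_eq_getElem?_getD, List.getD_eq_getElem?_getD,
      List.getElem?_append_left hi]
  have h2 : ∀ t : ZMod m, IsUnit t → (S.map fun x => sw (t * x)).sum =
      ∑ i ∈ range c.rel.length, C i * Bf (c.rel.getD i ([], [])) t +
        ∑ i ∈ range c.com.length, C (c.rel.length + i) * c.B (c.rel.length + i) t := by
    intro t ht
    rw [h1 t ht, Cert.r, Finset.sum_range_add]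
    congr 1
    refine sum_congr rfl fun i hi => ?_
    rw [hBrel i (mem_range.1 hi)]
  -- sums over the powers
  have h3 : ∀ t : ZMod m, IsUnit t → ∑ i ∈ range c.com.length, C (c.rel.length + i) *
      (∑ j ∈ range c.o, c.B (c.rel.length + i) ((c.g : ZMod m) ^ j * t)) = 0 := by
    intro t ht
    have h4 := hT t ht
    have h5 : ∀ j ∈ range c.o, (S.map fun x => sw ((c.g : ZMod m) ^ j * t * x)).sum = _ :=
      fun j _ => h2 ((c.g : ZMod m) ^ j * t) ((hgu.pow j).mul ht)
    rw [sum_congr rfl h5, sum_add_distrib, sum_comm, sum_comm (s := range c.o)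
      (t := range c.com.length)] at h4
    have h6 : ∑ i ∈ range c.rel.length, ∑ j ∈ range c.o, C i *
        Bf (c.rel.getD i ([], [])) ((c.g : ZMod m) ^ j * t) = 0 := by
      refine sum_eq_zero fun i hi => ?_
      rw [← mul_sum]
      have hi' := mem_range.1 hi
      have hb : c.rel.getD i ([], []) ∈ c.rel := by
        rw [List.getD_eq_getElem?_getD, List.getElem?_eq_getElem hi', Option.getD_some]
        exact List.getElem_mem hi'
      rw [rel_zero c hc _ hb t ht, mul_zero]
    rw [h6, zero_add] at h4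
    rw [← h4]
    refine sum_congr rfl fun i _ => ?_
    rw [← mul_sum]
  -- the complement
  have h3N : ∀ q ∈ c.N, ∑ j ∈ range c.com.length, C (c.rel.length + j) * q.getD j 0 = 0 := by
    intro q hq
    rw [hc.nn, List.mem_map] at hq
    obtain ⟨t, htl, rfl⟩ := hq
    obtain ⟨hg, htm⟩ := hc.tlc t htl
    refine Eq.trans ?_ (h3 (t : ZMod m) ((ZMod.isUnit_iff_coprime t m).2 hg))
    refine sum_congr rfl fun j hj => ?_
    congr 1
    have hj' := mem_range.1 hj
    rw [digs_getD _ _ _ _ hj']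
    have h4 : dg j (orb m c.g c.T c.o t / 4294967296 ^ c.rel.length) =
        dg (c.rel.length + j) (orb m c.g c.T c.o t) := dg_add j c.rel.length _
    rw [h4, orb_eq c hc t htm hg _ (by rw [Cert.r]; omega)]
    push_cast
    ring
  have h4 : ∀ i, i < c.com.length → C (c.rel.length + i) = 0 := by
    intro i0 hi0
    have h5 := comb_zero (fun j => C (c.rel.length + j)) c.com.length (c.E.getD i0 []) c.N h3N
    rw [Finset.sum_eq_single i0] at h5
    · exact (mul_eq_zero.1 h5).resolve_right ((hc.inv i0 hi0 i0 hi0).1 rfl)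
    · intro j hj hne
      rw [(hc.inv i0 hi0 j (mem_range.1 hj)).2 (Ne.symm hne), mul_zero]
    · intro h
      exact absurd (mem_range.2 hi0) h
  refine ⟨C, fun t ht => ?_⟩
  rw [h2 t ht]
  have h5 : ∑ i ∈ range c.com.length, C (c.rel.length + i) * c.B (c.rel.length + i) t = 0 := by
    refine sum_eq_zero fun i hi => ?_
    rw [h4 i (mem_range.1 hi), zero_mul]
  rw [h5, add_zero]

end main

end Pool.Agent.FSP
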