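import Pool.Agent.FSP.Sound

/-!
# Systems of characters and certificates
-/

set_option autoImplicit false

namespace Pool.Agent.FSP

open Finset
open Pool.Agent.Helper9.Fermat (sw sw_neg sw_zero sw_of_ne)

set_option linter.unusedSectionVars false

variable {m : ℕ} [NeZero m]

/-- the sum of the values of the sawtooth function -/
noncomputable def Wm (t : ZMod m) (S : Multiset (ZMod m)) : ℤ := (S.map fun x => sw (t * x)).sum

theorem Wm_add (t : ZMod m) (S T : Multiset (ZMod m)) : Wm t (S + T) = Wm t S + Wm t T := by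
  rw [Wm, Multiset.map_add, Multiset.sum_add]
  rfl

theorem Wm_zero (t : ZMod m) : Wm t (0 : Multiset (ZMod m)) = 0 := by simp [Wm]

theorem Wm_neg (t : ZMod m) (S : Multiset (ZMod m)) :
    Wm t (S.map fun z => -z) = - Wm t S := by
  rw [Wm, Wm, Multiset.map_map, ← Multiset.sum_map_neg]
  congr 1
  refine Multiset.map_congr rfl fun x _ => ?_
  rw [Function.comp_apply, mul_neg, sw_neg]

theorem Wm_nsmul (t : ZMod m) (n : ℕ) (S : Multiset (ZMod m)) :
    Wm t (n • S) = n * Wm t S := by
  induction n with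
  | zero => simp [Wm]
  | succ n ih =>
    rw [succ_nsmul, Wm_add, ih]
    push_cast
    ring

theorem Wm_sum {ι : Type} (s : Finset ι) (X : ι → Multiset (ZMod m)) (t : ZMod m) :
    Wm t (∑ i ∈ s, X i) = ∑ i ∈ s, Wm t (X i) := by
  classical
  induction s using Finset.induction_on with
  | empty => simp [Wm]
  | insert a s ha ih => rw [sum_insert ha, sum_insert ha, Wm_add, ih]

/-- Tate characters in characteristic `p`: for all units `t` the sum of the values of the odd
sawtooth function at the elements `p ^ i t x` vanishes, `i` running over a period. -/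
def TateC (p : ℕ) (S : Multiset (ZMod m)) : Prop :=
  ∃ F : ℕ, 0 < F ∧ (p : ZMod m) ^ F = 1 ∧
    ∀ t : ZMod m, IsUnit t → ∑ j ∈ range F, Wm ((p : ZMod m) ^ j * t) S = 0

/-- Hodge characters -/
def HodgeC (S : Multiset (ZMod m)) : Prop := ∀ t : ZMod m, IsUnit t → Wm t S = 0

/-- the properties of the system of algebraic characters -/
structure Sys (p : ℕ) (G : Multiset (ZMod m) → Prop) : Prop where
  nz : ∀ S, G S → (0 : ZMod m) ∉ S
  pair : ∀ x : ZMod m, x ≠ 0 → G {x, -x}
  curves : ∀ x y z x' y' z' : ZMod m, x ≠ 0 → y ≠ 0 → z ≠ 0 → x' ≠ 0 → y' ≠ 0 → z' ≠ 0 →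
    x + y + z = 0 → x' + y' + z' = 0 → TateC p {x, y, z, x', y', z'} → G {x, y, z, x', y', z'}
  hodge : ∀ S : Multiset (ZMod m), (0 : ZMod m) ∉ S → S.sum = 0 → HodgeC S → G S
  join : ∀ S T, G S → G T → G (S + T)
  cancel : ∀ S, ∀ x : ZMod m, x ≠ 0 → G (S + {x, -x}) → G S

section orbits

/-- sums over the powers of a unit do not depend on the generator -/
theorem orbit_sum {g p : ZMod m} {o F : ℕ} (ho : g ^ o = 1) (hF : 0 < F) {e : ℕ}
    (hpe : p = g ^ e) (w : ZMod m → ℤ) (hw : ∀ t : ZMod m, IsUnit t →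
      ∑ j ∈ range F, w (p ^ j * t) = 0) (hg : IsUnit g) (t : ZMod m) (ht : IsUnit t) :
    ∑ i ∈ range o, w (g ^ i * t) = 0 := by
  -- invariance
  have h1 : ∀ s : ZMod m, ∑ i ∈ range o, w (g ^ i * (g * s)) = ∑ i ∈ range o, w (g ^ i * s) := by
    intro s
    have h2 := Finset.sum_range_succ (fun i => w (g ^ i * s)) o
    rw [Finset.sum_range_succ', pow_zero, one_mul, ho, one_mul] at h2
    have h3 : ∀ i ∈ range o, w (g ^ (i + 1) * s) = w (g ^ i * (g * s)) := by
      intro i _
      congr 1
      ring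
    rw [sum_congr rfl h3] at h2
    exact add_right_cancel h2
  have h2 : ∀ (n : ℕ) (s : ZMod m),
      ∑ i ∈ range o, w (g ^ i * (g ^ n * s)) = ∑ i ∈ range o, w (g ^ i * s) := by
    intro n
    induction n with
    | zero => intro s; simp
    | succ n ih =>
      intro s
      rw [← ih s, ← h1 (g ^ n * s)]
      refine sum_congr rfl fun i _ => ?_
      congr 1
      ring
  have h3 : ∀ j : ℕ, ∑ i ∈ range o, w (g ^ i * (p ^ j * t)) = ∑ i ∈ range o, w (g ^ i * t) := by
    intro j
    rw [hpe, ← pow_mul]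
    exact h2 _ t
  have h4 : ∑ j ∈ range F, ∑ i ∈ range o, w (g ^ i * (p ^ j * t)) = 0 := by
    rw [sum_comm]
    refine sum_eq_zero fun i _ => ?_
    rw [← hw (g ^ i * t) ((hg.pow i).mul ht)]
    refine sum_congr rfl fun j _ => ?_
    congr 1
    ring
  rw [sum_congr rfl fun j _ => h3 j, sum_const, card_range, nsmul_eq_mul] at h4
  exact (mul_eq_zero.1 h4).resolve_left (by exact_mod_cast hF.ne')

end orbits

namespace Sys

variable {p : ℕ} {G : Multiset (ZMod m) → Prop} (hG : Sys p G)

include hG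

theorem zero (hm : 1 < m) : G 0 := by
  have : Fact (1 < m) := ⟨hm⟩
  refine hG.cancel 0 1 one_ne_zero ?_
  rw [zero_add]
  exact hG.pair 1 one_ne_zero

theorem nsmul (hm : 1 < m) {S : Multiset (ZMod m)} (hS : G S) (n : ℕ) : G (n • S) := by
  induction n with
  | zero => rw [zero_nsmul]; exact hG.zero hm
  | succ n ih => rw [succ_nsmul]; exact hG.join _ _ ih hS

theorem finset_sum (hm : 1 < m) {ι : Type} (s : Finset ι) (X : ι → Multiset (ZMod m))
    (hX : ∀ i ∈ s, G (X i)) : G (∑ i ∈ s, X i) := by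
  classical
  induction s using Finset.induction_on with
  | empty => rw [sum_empty]; exact hG.zero hm
  | insert a s ha ih =>
    rw [sum_insert ha]
    exact hG.join _ _ (hX a (mem_insert_self a s)) (ih fun i hi => hX i (mem_insert_of_mem hi))

theorem cancel_all (T : Multiset (ZMod m)) (h0 : (0 : ZMod m) ∉ T) (S : Multiset (ZMod m))
    (h : G (S + T + T.map fun z => -z)) : G S := by
  induction T using Multiset.induction_on generalizing S with
  | empty => simpa using h
  | cons x T ih =>
    rw [Multiset.mem_cons, not_or] at h0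
    refine ih h0.2 S ?_
    refine hG.cancel _ x (Ne.symm h0.1) ?_
    have h1 : S + (x ::ₘ T) + (x ::ₘ T).map (fun z => -z) =
        S + T + T.map (fun z => -z) + {x, -x} := by
      rw [Multiset.map_cons, ← Multiset.singleton_add, ← Multiset.singleton_add (-x),
        Multiset.insert_eq_cons, ← Multiset.singleton_add x]
      abel
    rw [← h1]
    exact h

end Sys

/-- the multiset of a list of natural numbers -/
def ms (l : List ℕ) : Multiset (ZMod m) := ((l.map fun y : ℕ => (y : ZMod m)) : List (ZMod m))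

theorem Wm_ms (t : ZMod m) (l : List ℕ) : Wm t (ms l) = Ls t l := by
  rw [Wm, ms, Ls, Multiset.map_coe, Multiset.sum_coe, List.map_map]
  rfl

theorem relOK_spec {b : List ℕ × List ℕ} (h : relOK m b = true) (hn : nzOK m b = true) :
    ∃ x y z x' y' z' : ℕ, b = ([x, y, z], [x', y', z']) ∧ (x : ZMod m) ≠ 0 ∧ (y : ZMod m) ≠ 0 ∧
      (z : ZMod m) ≠ 0 ∧ (x' : ZMod m) ≠ 0 ∧ (y' : ZMod m) ≠ 0 ∧ (z' : ZMod m) ≠ 0 ∧
      (x : ZMod m) + y + z = 0 ∧ (x' : ZMod m) + y' + z' = 0 := by
  obtain ⟨l, l'⟩ := b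
  simp only [relOK, Bool.and_eq_true, beq_iff_eq] at h
  simp only [nzOK, Bool.and_eq_true] at hn
  obtain ⟨⟨⟨h1, h2⟩, h5⟩, h6⟩ := h
  obtain ⟨h3, h4⟩ := hn
  obtain ⟨x, y, z, rfl⟩ := List.length_eq_three.1 h1
  obtain ⟨x', y', z', rfl⟩ := List.length_eq_three.1 h2
  simp only [List.all_cons, List.all_nil, Bool.and_true, Bool.and_eq_true, Bool.not_eq_true',
    beq_eq_false_iff_ne] at h3 h4
  refine ⟨x, y, z, x', y', z', rfl, ne_of_mod h3.1, ne_of_mod h3.2.1, ne_of_mod h3.2.2,
    ne_of_mod h4.1, ne_of_mod h4.2.1, ne_of_mod h4.2.2, ?_, ?_⟩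
  · have h7 : ((x + (y + z) : ℕ) : ZMod m) = 0 := by
      rw [ZMod.natCast_eq_zero_iff]
      refine Nat.dvd_of_mod_eq_zero ?_
      simpa [List.sum_cons] using h5
    push_cast at h7
    rw [add_assoc]
    exact h7
  · have h7 : ((x' + (y' + z') : ℕ) : ZMod m) = 0 := by
      rw [ZMod.natCast_eq_zero_iff]
      refine Nat.dvd_of_mod_eq_zero ?_
      simpa [List.sum_cons] using h6
    push_cast at h7
    rw [add_assoc]
    exact h7

/-- the elements of a relation are nonzero and have sum zero -/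
theorem mem_of_rel {b : List ℕ × List ℕ} (h : relOK m b = true) (hn : nzOK m b = true) :
    (0 : ZMod m) ∉ (ms b.1 : Multiset (ZMod m)) ∧ (0 : ZMod m) ∉ (ms b.2 : Multiset (ZMod m)) ∧
      (ms b.1 : Multiset (ZMod m)).sum = 0 ∧ (ms b.2 : Multiset (ZMod m)).sum = 0 := by
  obtain ⟨x, y, z, x', y', z', rfl, h1, h2, h3, h4, h5, h6, h7, h8⟩ := relOK_spec h hn
  refine ⟨?_, ?_, ?_, ?_⟩
  · simp only [ms, List.map_cons, List.map_nil, Multiset.mem_coe, List.mem_cons, List.not_mem_nil,
      or_false, not_or]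
    exact ⟨Ne.symm h1, Ne.symm h2, Ne.symm h3⟩
  · simp only [ms, List.map_cons, List.map_nil, Multiset.mem_coe, List.mem_cons, List.not_mem_nil,
      or_false, not_or]
    exact ⟨Ne.symm h4, Ne.symm h5, Ne.symm h6⟩
  · simp only [ms, List.map_cons, List.map_nil, Multiset.sum_coe, List.sum_cons, List.sum_nil,
      add_zero]
    rw [← add_assoc]
    exact h7
  · simp only [ms, List.map_cons, List.map_nil, Multiset.sum_coe, List.sum_cons, List.sum_nil,
      add_zero]
    rw [← add_assoc]
    exact h8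

/-- A Tate character is algebraic if there is a certificate. -/
theorem gen_of_cert {p : ℕ} {G : Multiset (ZMod m) → Prop} (hG : Sys p G) (hm : 1 < m)
    (c : Cert) (hc : c.OK m) (ho : (c.g : ZMod m) ^ c.o = 1) (ho0 : 0 < c.o) (e e' : ℕ)
    (hpe : (p : ZMod m) = (c.g : ZMod m) ^ e) (hge : (c.g : ZMod m) = (p : ZMod m) ^ e')
    (S : Multiset (ZMod m)) (h0 : (0 : ZMod m) ∉ S) (hsum : S.sum = 0) (heven : Even S.card)
    (hT : TateC p S) : G S := by
  classical
  have hg : IsUnit (c.g : ZMod m) := IsUnit.of_pow_eq_one ho ho0.ne'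
  have hp : IsUnit (p : ZMod m) := by rw [hpe]; exact hg.pow e
  obtain ⟨F, hF0, hF, hT⟩ := hT
  have h1 : ∀ t : ZMod m, IsUnit t →
      ∑ j ∈ range c.o, Wm ((c.g : ZMod m) ^ j * t) S = 0 :=
    fun t ht => orbit_sum ho hF0 hpe (fun s => Wm s S) hT hg t ht
  obtain ⟨C, hC⟩ := sound c hc S h0 hsum heven h1
  -- the relations
  have hrel : ∀ b ∈ c.rel, G (ms b.1 + (ms b.2).map fun z => -z) ∧
      G (ms b.2 + (ms b.1).map fun z => -z) := by
    intro b hb
    have hok := hc.rel b hb
    have hN := rel_zero c hc b hb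
    obtain ⟨x, y, z, x', y', z', rfl, h1, h2, h3, h4, h5, h6, h7, h8⟩ :=
      relOK_spec hok (hc.nz _ (List.mem_append_left _ hb))
    have hNp : ∀ t : ZMod m, IsUnit t →
        ∑ j ∈ range F, Bf ([x, y, z], [x', y', z']) ((p : ZMod m) ^ j * t) = 0 :=
      fun t ht => orbit_sum hF ho0 hge (fun s => Bf ([x, y, z], [x', y', z']) s) hN hp t ht
    have hW : ∀ t : ZMod m, Wm t {(x : ZMod m), (y : ZMod m), (z : ZMod m), -(x' : ZMod m),
        -(y' : ZMod m), -(z' : ZMod m)} = Bf ([x, y, z], [x', y', z']) t := by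
      intro t
      simp only [Wm, Bf, Ls, Multiset.insert_eq_cons, Multiset.map_cons, Multiset.map_singleton,
        Multiset.sum_cons, Multiset.sum_singleton, List.map_cons, List.map_nil, List.sum_cons,
        List.sum_nil, mul_neg, sw_neg]
      ring
    have hW' : ∀ t : ZMod m, Wm t {(x' : ZMod m), (y' : ZMod m), (z' : ZMod m), -(x : ZMod m),
        -(y : ZMod m), -(z : ZMod m)} = - Bf ([x, y, z], [x', y', z']) t := by
      intro t
      simp only [Wm, Bf, Ls, Multiset.insert_eq_cons, Multiset.map_cons, Multiset.map_singleton,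
        Multiset.sum_cons, Multiset.sum_singleton, List.map_cons, List.map_nil, List.sum_cons,
        List.sum_nil, mul_neg, sw_neg]
      ring
    constructor
    · have h9 := hG.curves x y z (-x') (-y') (-z') h1 h2 h3 (neg_ne_zero.2 h4) (neg_ne_zero.2 h5)
        (neg_ne_zero.2 h6) h7 (by linear_combination -h8)
        ⟨F, hF0, hF, fun t ht => by
          rw [sum_congr rfl fun j _ => hW _]
          exact hNp t ht⟩
      exact h9
    · have h9 := hG.curves x' y' z' (-x) (-y) (-z) h4 h5 h6 (neg_ne_zero.2 h1) (neg_ne_zero.2 h2)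
        (neg_ne_zero.2 h3) h8 (by linear_combination -h7)
        ⟨F, hF0, hF, fun t ht => by
          rw [sum_congr rfl fun j _ => hW' _, sum_neg_distrib, hNp t ht, neg_zero]⟩
      exact h9
  -- the correction
  let X : ℕ → Multiset (ZMod m) := fun i =>
    if 0 ≤ C i then (C i).toNat • (ms (c.rel.getD i ([], [])).2 +
      (ms (c.rel.getD i ([], [])).1).map fun z => -z)
    else (- C i).toNat • (ms (c.rel.getD i ([], [])).1 +
      (ms (c.rel.getD i ([], [])).2).map fun z => -z)
  have hmem : ∀ i, i < c.rel.length → c.rel.getD i ([], []) ∈ c.rel := by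
    intro i hi
    rw [List.getD_eq_getElem?_getD, List.getElem?_eq_getElem hi, Option.getD_some]
    exact List.getElem_mem hi
  have hXW : ∀ (i : ℕ) (t : ZMod m), Wm t (X i) = - (C i * Bf (c.rel.getD i ([], [])) t) := by
    intro i t
    simp only [X]
    split_ifs with h
    · rw [Wm_nsmul, Wm_add, Wm_neg, Wm_ms, Wm_ms, Bf, Int.toNat_of_nonneg h]
      ring
    · rw [Wm_nsmul, Wm_add, Wm_neg, Wm_ms, Wm_ms, Bf, Int.toNat_of_nonneg (by omega)]
      ring
  have hXG : ∀ i ∈ range c.rel.length, G (X i) ∧ G ((X i).map fun z => -z) := by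
    intro i hi
    have h2 := hrel _ (hmem i (mem_range.1 hi))
    have h3 : ∀ A B : Multiset (ZMod m), (A + B.map fun z => -z).map (fun z => -z) =
        B + A.map fun z => -z := by
      intro A B
      rw [Multiset.map_add, Multiset.map_map]
      have h4 : Multiset.map ((fun z : ZMod m => -z) ∘ fun z : ZMod m => -z) B = B := by
        conv_rhs => rw [← Multiset.map_id B]
        refine Multiset.map_congr rfl fun z _ => ?_
        simp
      rw [h4, add_comm]
    simp only [X]
    split_ifs with h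
    · refine ⟨hG.nsmul hm h2.2 _, ?_⟩
      rw [Multiset.map_nsmul, h3]
      exact hG.nsmul hm h2.1 _
    · refine ⟨hG.nsmul hm h2.1 _, ?_⟩
      rw [Multiset.map_nsmul, h3]
      exact hG.nsmul hm h2.2 _
  have hXsum : ∀ i ∈ range c.rel.length, (X i).sum = 0 := by
    intro i hi
    obtain ⟨-, -, h3, h4⟩ := mem_of_rel (hc.rel _ (hmem i (mem_range.1 hi)))
      (hc.nz _ (List.mem_append_left _ (hmem i (mem_range.1 hi))))
    simp only [X]
    split_ifs with h
    · rw [Multiset.sum_nsmul, Multiset.sum_add, Multiset.sum_map_neg, Multiset.map_id', h3, h4]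
      simp
    · rw [Multiset.sum_nsmul, Multiset.sum_add, Multiset.sum_map_neg, Multiset.map_id', h3, h4]
      simp
  set T := ∑ i ∈ range c.rel.length, X i with hTdef
  have hTG : G T := hG.finset_sum hm _ _ fun i hi => (hXG i hi).1
  have hTG' : G (T.map fun z => -z) := by
    have h2 : (T.map fun z => -z) = ∑ i ∈ range c.rel.length, (X i).map fun z => -z := by
      rw [hTdef]
      have h3 := map_sum (Multiset.mapAddMonoidHom fun z : ZMod m => -z) X (range c.rel.length)
      exact h3
    rw [h2]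
    exact hG.finset_sum hm _ _ fun i hi => (hXG i hi).2
  have hT0 : (0 : ZMod m) ∉ T := hG.nz _ hTG
  have hTsum : T.sum = 0 := by
    rw [hTdef]
    have h3 := map_sum (Multiset.sumAddMonoidHom : Multiset (ZMod m) →+ ZMod m) X
      (range c.rel.length)
    rw [Multiset.coe_sumAddMonoidHom] at h3
    rw [h3]
    exact sum_eq_zero hXsum
  have hST : G (S + T) := by
    refine hG.hodge _ ?_ ?_ ?_
    · rw [Multiset.mem_add, not_or]
      exact ⟨h0, hT0⟩
    · rw [Multiset.sum_add, hsum, hTsum, add_zero]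
    · intro t ht
      rw [Wm_add, hTdef, Wm_sum, sum_congr rfl fun i _ => hXW i t, sum_neg_distrib]
      have h2 := hC t ht
      rw [show Wm t S = (S.map fun x => sw (t * x)).sum from rfl, h2]
      ring
  exact hG.cancel_all T hT0 S (hG.join _ _ hST hTG')

end Pool.Agent.FSP
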