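import Pool.Agent.FSP.Sys

/-!
# Tables of certificates
-/

set_option autoImplicit false

namespace Pool.Agent.FSP

open Finset

/-- powers of `u` modulo `m` -/
def pws (m u : ℕ) : ℕ → ℕ → List ℕ
  | 0, _ => []
  | n + 1, x => x :: pws m u n (u * x % m)

theorem pws_spec {m : ℕ} (u n x y : ℕ) (h : y ∈ pws m u n x) :
    ∃ i : ℕ, (y : ZMod m) = (u : ZMod m) ^ i * x := by
  induction n generalizing x with
  | zero => simp [pws] at h
  | succ n ih =>
    rw [pws, List.mem_cons] at h
    rcases h with rfl | h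
    · exact ⟨0, by simp⟩
    · obtain ⟨i, hi⟩ := ih _ h
      refine ⟨i + 1, ?_⟩
      rw [hi, ZMod.natCast_mod]
      push_cast
      ring

/-- Every unit whose powers do not contain `-1` has the same powers as a generator in the table. -/
def tableOK (m n : ℕ) (L : List Cert) : Bool :=
  (List.range m).all fun u => !(Nat.gcd u m == 1) || u == 1 || (pws m u n 1).contains (m - 1) ||
    L.any fun c => (pws m c.g n 1).contains u && (pws m u n 1).contains c.g

/-- the periods are correct -/
def perOK (m : ℕ) (L : List Cert) : Bool :=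
  L.all fun c => c.g ^ c.o % m == 1 % m && !(c.o == 0)

/-- For every system of characters with the properties `Sys`, every Tate character of level `m` is a
member of the system. -/
def Lev (m : ℕ) [NeZero m] : Prop :=
  ∀ (p : ℕ) (G : Multiset (ZMod m) → Prop), Sys p G → IsUnit (p : ZMod m) →
    (∀ i : ℕ, (p : ZMod m) ^ i ≠ -1) → ∀ S : Multiset (ZMod m), (0 : ZMod m) ∉ S → S.sum = 0 →
      Even S.card → TateC p S → G S

theorem lev_of_table {m : ℕ} [NeZero m] (hm : 1 < m) (n : ℕ) (L : List Cert)
    (h1 : tableOK m n L = true) (h2 : perOK m L = true)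
    (h3 : ∀ c ∈ L, c.check1 m = true ∧ c.check2 m = true ∧ c.check3 m = true) : Lev m := by
  intro p G hG hp hneg S h0 hsum heven hT
  have hu : Nat.gcd (p : ZMod m).val m = 1 := by
    have h4 := ZMod.isUnit_iff_coprime (p : ZMod m).val m
    rw [ZMod.natCast_zmod_val] at h4
    exact h4.1 hp
  have h4 := List.all_eq_true.1 h1 (p : ZMod m).val (List.mem_range.2 (ZMod.val_lt _))
  rw [hu] at h4
  simp only [beq_self_eq_true, Bool.not_true, Bool.false_or, Bool.or_eq_true, beq_iff_eq,
    List.contains_iff_mem, List.any_eq_true, Bool.and_eq_true] at h4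
  rcases h4 with (h4 | h4) | ⟨c, hc, h5, h6⟩
  · -- the trivial group
    have hp1 : (p : ZMod m) = 1 := by
      rw [← ZMod.natCast_zmod_val (p : ZMod m), h4, Nat.cast_one]
    refine hG.hodge S h0 hsum ?_
    intro t ht
    obtain ⟨F, hF0, -, hF⟩ := hT
    have h5 := hF t ht
    rw [hp1, sum_congr rfl fun j _ => by rw [one_pow, one_mul], sum_const, card_range,
      nsmul_eq_mul] at h5
    exact (mul_eq_zero.1 h5).resolve_left (by exact_mod_cast hF0.ne')
  · exfalso
    obtain ⟨i, hi⟩ := pws_spec _ _ _ _ h4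
    apply hneg i
    rw [Nat.cast_one, mul_one, ZMod.natCast_zmod_val, Nat.cast_sub hm.le, ZMod.natCast_self,
      Nat.cast_one, zero_sub] at hi
    exact hi.symm
  · obtain ⟨e, he⟩ := pws_spec _ _ _ _ h5
    obtain ⟨e', he'⟩ := pws_spec _ _ _ _ h6
    rw [Nat.cast_one, mul_one, ZMod.natCast_zmod_val] at he he'
    have h7 := List.all_eq_true.1 h2 c hc
    simp only [Bool.and_eq_true, beq_iff_eq, Bool.not_eq_true', beq_eq_false_iff_ne] at h7
    have h8 : (c.g : ZMod m) ^ c.o = 1 := by
      have h9 : ((c.g ^ c.o % m : ℕ) : ZMod m) = ((1 % m : ℕ) : ZMod m) := by rw [h7.1]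
      rw [ZMod.natCast_mod, ZMod.natCast_mod] at h9
      push_cast at h9
      exact h9
    exact gen_of_cert hG hm c (Cert.ok_of_check m _ (h3 c hc).1 (h3 c hc).2.1 (h3 c hc).2.2) h8
      (Nat.pos_of_ne_zero h7.2) e e' he he' S h0 hsum heven hT

end Pool.Agent.FSP
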